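import Mathlib
import Pool.Agent.H943.KS.Modp

/-!
# Signatures over a field whose Galois closure has degree prime to `p`
-/

set_option autoImplicit false
set_option linter.unusedSectionVars false

open Finset MulAction

namespace Pool.Agent.H943.KF

open Pool.Agent.H943.KS (sylow_tr)

section

variable {G X Y : Type} [Group G] [MulAction G X] [MulAction G Y] [Fintype X]

/-- A normal subgroup of index prime to `p` in the stabilizers is transitive on the
fibres, if their order is a power of `p`. -/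
theorem fib_tr {H : Subgroup G} (hn : H.Normal) {p : ℕ}
    (hco : ∀ y : Y, Nat.Coprime p (H.relIndex (stabilizer G y))) {π : X → Y}
    (hπ : ∀ (σ : G) x, π (σ • x) = σ • π x)
    (htr : ∀ x x' : X, ∃ σ : G, σ • x = x') {x x' : X} (hxx : π x = π x')
    (hb : ∃ b, Nat.card {z // π z = π x} = p ^ b) : ∃ σ ∈ H, σ • x = x' := by
  classical
  obtain ⟨b, hb⟩ := hb
  let K : Subgroup G := stabilizer G (π x)
  let S : Subgroup G := stabilizer G x
  have h1 : S.relIndex K = p ^ b := by
    have h2 : S.relIndex K = (orbit K x).ncard := by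
      rw [← index_stabilizer]
      unfold Subgroup.relIndex
      congr 1
    have h3 : orbit K x = {z | π z = π x} := by
      ext z
      constructor
      · rintro ⟨σ, rfl⟩
        change π ((σ : G) • x) = π x
        rw [hπ]
        exact σ.2
      · intro hz
        obtain ⟨σ, rfl⟩ := htr x z
        refine ⟨⟨σ, ?_⟩, rfl⟩
        change σ • π x = π x
        rw [← hπ]
        exact hz
    rw [h2, h3, ← hb]
    rfl
  have h2 : (H ⊔ S).relIndex K ∣ S.relIndex K := Subgroup.relIndex_dvd_of_le_left K le_sup_right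
  have h3 : (H ⊔ S).relIndex K ∣ H.relIndex K := Subgroup.relIndex_dvd_of_le_left K le_sup_left
  have h5 : (H ⊔ S).relIndex K = 1 := by
    rw [h1] at h2
    exact Nat.eq_one_of_dvd_coprimes (Nat.Coprime.pow_left b (hco _)) h2 h3
  have h6 : K ≤ H ⊔ S := Subgroup.relIndex_eq_one.1 h5
  obtain ⟨σ, rfl⟩ := htr x x'
  have hσ : σ ∈ K := by
    change σ • π x = π x
    rw [← hπ]
    exact hxx.symm
  obtain ⟨h, hh, s, hs, rfl⟩ := Subgroup.mem_sup_of_normal_left.1 (h6 hσ)
  refine ⟨h, hh, ?_⟩
  rw [mul_smul, mem_stabilizer_iff.1 hs]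

end

/-- The data: a transitive set over a base on which a normal subgroup, of index prime to `p` in the
stabilizers, acts trivially, with fibres of order a power of `p`. -/
structure Base {G X Y : Type} [Group G] [MulAction G X] [MulAction G Y] [Fintype X] [Fintype Y]
    [DecidableEq Y]
    (H : Subgroup G) (p : ℕ) (π : X → Y) (c : X → X) (c' : Y → Y) : Prop where
  normal : H.Normal
  triv : ∀ σ ∈ H, ∀ y : Y, σ • y = y
  cop : ∀ y : Y, Nat.Coprime p (H.relIndex (stabilizer G y))
  eqv : ∀ (σ : G) x, π (σ • x) = σ • π x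
  tr : ∀ x x' : X, ∃ σ : G, σ • x = x'
  surj : ∀ y, ∃ x, π x = y
  card : ∀ y, ∃ b, Fintype.card {z // π z = y} = p ^ b
  cc : ∀ x, c (c x) = x
  cg : ∀ (σ : G) x, c (σ • x) = σ • c x
  pc : ∀ x, π (c x) = c' (π x)

section

variable {G X Y : Type} [Group G] [MulAction G X] [MulAction G Y] [Fintype X] [Fintype Y]
  [DecidableEq Y] {H : Subgroup G} {p : ℕ} [hp : Fact p.Prime] {π : X → Y} {c : X → X} {c' : Y → Y}
  (B : Base H p π c c')
include B

/-- **The annihilator of the translates.** -/
theorem ann (f : X → ZMod p)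
    (hF : ∀ L : Y → ZMod p, (∀ y, L (c' y) = - L y) →
      (∀ σ : G, ∑ y, (∑ x : {x // π x = σ • y}, f x) * L y = 0) → L = 0)
    (u : X → ZMod p) (hodd : ∀ x, u (c x) = - u x) (hu : ∀ σ : G, ∑ x, f (σ • x) * u x = 0) :
    u = 0 := by
  classical
  by_contra hne
  let φ : G →* (MulAction.toPermHom G X).range := (MulAction.toPermHom G X).rangeRestrict
  let Γ := (MulAction.toPermHom G X).range
  have hφ : Function.Surjective φ := MonoidHom.rangeRestrict_surjective _
  have hsm : ∀ (σ : G) (x : X), (φ σ : Γ) • x = σ • x := fun _ _ => rfl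
  have : Finite Γ := inferInstance
  let Hb : Subgroup Γ := H.map φ
  have hnb : Hb.Normal := Subgroup.Normal.map B.normal φ hφ
  obtain ⟨P0⟩ : Nonempty (Sylow p Hb) := inferInstance
  obtain ⟨P, hP⟩ : ∃ P : Subgroup Γ, P = (P0 : Subgroup Hb).map Hb.subtype := ⟨_, rfl⟩
  have hPp : IsPGroup p P := by
    rw [hP]
    exact P0.isPGroup'.map _
  have hfib : ∀ x z : X, π x = π z → ∃ γ ∈ P, γ • x = z := by
    intro x z hxz
    let _ : MulAction Hb {w // π w = π z} :=
      { smul := fun γ w => ⟨(γ : Γ) • w.1, by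
          obtain ⟨σ, hσ, hσγ⟩ := γ.2
          rw [← hσγ, hsm, B.eqv, B.triv σ hσ]
          exact w.2⟩
        one_smul := fun w => Subtype.ext (one_smul Γ w.1)
        mul_smul := fun γ δ w => Subtype.ext (mul_smul (γ : Γ) (δ : Γ) w.1) }
    obtain ⟨b, hb⟩ := B.card (π z)
    obtain ⟨γ, hγ, hγx⟩ := sylow_tr (Γ := Hb) hb (by
      rintro ⟨w, hw⟩ ⟨w', hw'⟩
      obtain ⟨σ, hσ, h1⟩ := fib_tr (x := w) (x' := w') B.normal B.cop B.eqv B.tr (hw.trans hw'.symm)
        ⟨b, by rw [← hb, Nat.card_eq_fintype_card, hw]⟩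
      exact ⟨⟨φ σ, ⟨σ, hσ, rfl⟩⟩, Subtype.ext h1⟩) P0 ⟨x, hxz⟩ ⟨z, rfl⟩
    exact ⟨γ, by rw [hP]; exact ⟨γ, hγ, rfl⟩, congrArg Subtype.val hγx⟩
  let W : AddSubgroup (X → ZMod p) :=
    { carrier := {y | (∀ x, y (c x) = - y x) ∧ ∀ γ : Γ, ∑ x, f (γ • x) * y x = 0}
      add_mem' := fun {u v} hu hv => ⟨fun x => by
          simp only [Pi.add_apply, hu.1, hv.1]
          ring, fun γ => by
          simp only [Pi.add_apply, mul_add, sum_add_distrib, hu.2 γ, hv.2 γ, add_zero]⟩
      zero_mem' := ⟨fun x => by simp, fun γ => by simp⟩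
      neg_mem' := fun {u} hu => ⟨fun x => by simp only [Pi.neg_apply, hu.1], fun γ => by
        simp only [Pi.neg_apply, mul_neg, sum_neg_distrib, hu.2 γ, neg_zero]⟩ }
  have hcΓ : ∀ (γ : Γ) (x : X), c (γ • x) = γ • c x := by
    intro γ x
    obtain ⟨σ, rfl⟩ := hφ γ
    exact B.cg σ x
  have hact : ∀ (γ : Γ) (u : X → ZMod p), u ∈ W → (fun x => u (γ⁻¹ • x)) ∈ W := by
    intro γ u hu
    refine ⟨fun x => ?_, fun δ => ?_⟩
    · change u (γ⁻¹ • c x) = - u (γ⁻¹ • x)
      rw [← hcΓ, hu.1]
    · have h1 := hu.2 (δ * γ)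
      rw [← h1]
      refine Fintype.sum_equiv (MulAction.toPerm γ⁻¹) _ _ fun x => ?_
      rw [MulAction.toPerm_apply, mul_smul, smul_inv_smul]
  let _ : MulAction (P : Subgroup Γ) W :=
    { smul := fun γ u => ⟨fun x => (u : X → ZMod p) ((γ : Γ)⁻¹ • x), hact γ u u.2⟩
      one_smul := fun u => Subtype.ext (by
        funext x
        change (u : X → ZMod p) (((1 : (P : Subgroup Γ)) : Γ)⁻¹ • x) = _
        rw [Subgroup.coe_one, inv_one, one_smul])
      mul_smul := fun γ δ u => Subtype.ext (by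
        funext x
        change (u : X → ZMod p) (((γ * δ : (P : Subgroup Γ)) : Γ)⁻¹ • x) =
          (u : X → ZMod p) ((δ : Γ)⁻¹ • (γ : Γ)⁻¹ • x)
        rw [Subgroup.coe_mul, mul_inv_rev, mul_smul]) }
  have hsm' : ∀ (γ : (P : Subgroup Γ)) (u : W) (x : X),
      ((γ • u : W) : X → ZMod p) x = (u : X → ZMod p) ((γ : Γ)⁻¹ • x) := fun _ _ _ => rfl
  have h0 : (0 : W) ∈ fixedPoints (P : Subgroup Γ) W := by
    intro γ
    apply Subtype.ext
    funext x
    rw [hsm']
    rfl
  have huW : u ∈ W := ⟨hodd, fun γ => by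
    obtain ⟨σ, rfl⟩ := hφ γ
    exact hu σ⟩
  have hd : p ∣ Nat.card W := by
    have h1 : Nat.card W ∣ Nat.card (X → ZMod p) := AddSubgroup.card_addSubgroup_dvd_card W
    rw [Nat.card_fun, Nat.card_zmod] at h1
    obtain ⟨k, -, hk⟩ := (Nat.dvd_prime_pow hp.out).1 h1
    rcases Nat.eq_zero_or_pos k with h2 | h2
    · exfalso
      rw [h2, pow_zero, Nat.card_eq_one_iff_unique] at hk
      have := hk.1
      exact hne (congrArg Subtype.val (Subsingleton.elim (⟨u, huW⟩ : W) 0))
    · rw [hk]
      exact dvd_pow_self p h2.ne'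
  obtain ⟨v, hv, hv0⟩ := hPp.exists_fixed_point_of_prime_dvd_card_of_fixed_point W hd h0
  have hconst : ∀ x z, π x = π z → (v : X → ZMod p) x = (v : X → ZMod p) z := by
    intro x z hxz
    obtain ⟨γ, hγP, hγ⟩ := hfib x z hxz
    have h1 := hv ⟨γ, hγP⟩
    have h2 := congrFun (congrArg Subtype.val h1) z
    rw [hsm'] at h2
    rw [← h2, ← hγ]
    change _ = (v : X → ZMod p) (γ⁻¹ • γ • x)
    rw [inv_smul_smul]
  choose s hs using B.surj
  have hvs : ∀ x, (v : X → ZMod p) x = (v : X → ZMod p) (s (π x)) := fun x =>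
    hconst _ _ (hs (π x)).symm
  have hL : (fun y => (v : X → ZMod p) (s y)) = 0 := by
    refine hF _ (fun y => ?_) (fun σ => ?_)
    · rw [← v.2.1 (s y)]
      apply hconst
      rw [hs, B.pc, hs]
    · have h1 := v.2.2 (φ σ)
      rw [← h1, ← Finset.sum_fiberwise (s := univ) π (fun x => f (φ σ • x) * (v : X → ZMod p) x)]
      refine sum_congr rfl fun y _ => ?_
      have h2 : ∀ x ∈ univ.filter (fun x => π x = y), f (φ σ • x) * (v : X → ZMod p) x =
          f (σ • x) * (v : X → ZMod p) (s y) := by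
        intro x hx
        rw [hvs x, (mem_filter.1 hx).2, hsm]
      rw [sum_congr rfl h2, ← sum_mul]
      congr 1
      have h3 : ∑ x : {x // π x = σ • y}, f x = ∑ x ∈ univ.filter (fun x => π x = σ • y), f x :=
        (Finset.sum_subtype _ (fun x => by simp) f).symm
      rw [h3]
      symm
      refine Finset.sum_bij' (fun x _ => σ • x) (fun x _ => σ⁻¹ • x) ?_ ?_ ?_ ?_ ?_
      · intro x hx
        rw [mem_filter] at hx ⊢
        exact ⟨mem_univ _, by rw [B.eqv, hx.2]⟩
      · intro x hx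
        rw [mem_filter] at hx ⊢
        exact ⟨mem_univ _, by rw [B.eqv, hx.2, inv_smul_smul]⟩
      · intro x _
        exact inv_smul_smul σ x
      · intro x _
        exact smul_inv_smul σ x
      · intro x _
        rfl
  apply hv0
  apply Subtype.ext
  funext x
  change (0 : ZMod p) = _
  rw [hvs x]
  exact (congrFun hL (π x)).symm

end

/-- Integral matrices with trivial kernel modulo a prime. -/
theorem int_kernel {ι X : Type} [Fintype X] [DecidableEq X] {p : ℕ} [hp : Fact p.Prime]
    (A : ι → X → ℤ)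
    (h : ∀ u : X → ZMod p, (∀ i, ∑ x, (A i x : ZMod p) * u x = 0) → u = 0)
    (u : X → ℂ) (hu : ∀ i, ∑ x, (A i x : ℂ) * u x = 0) : u = 0 := by
  classical
  -- the vectors mod `p` span
  let v : ι → (X → ZMod p) := fun i x => (A i x : ZMod p)
  have hspan : Submodule.span (ZMod p) (Set.range v) = ⊤ := by
    by_contra hcon
    obtain ⟨φ, hφ0, hφ⟩ := Submodule.exists_le_ker_of_lt_top _ (lt_top_iff_ne_top.2 hcon)
    have h1 := h (fun x => φ (Pi.single x 1)) (by
        intro i
        have h2 : v i ∈ LinearMap.ker φ := hφ (Submodule.subset_span ⟨i, rfl⟩)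
        rw [LinearMap.mem_ker] at h2
        rw [← h2]
        have h3 : v i = ∑ x, v i x • (Pi.single x (1 : ZMod p) : X → ZMod p) := by
          funext z
          simp [Finset.sum_apply, Pi.single_apply]
        rw [h3, map_sum]
        refine sum_congr rfl fun x _ => ?_
        rw [map_smul, smul_eq_mul])
    apply hφ0
    refine LinearMap.pi_ext' fun x => LinearMap.ext_ring ?_
    have h2 := congrFun h1 x
    simpa using h2
  -- choose a basis among them
  obtain ⟨b, hb1, hb2, hb3⟩ := exists_linearIndependent (ZMod p) (Set.range v)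
  rw [hspan] at hb2
  let β : Module.Basis b (ZMod p) (X → ZMod p) := Module.Basis.mk hb3 (by
    rw [Subtype.range_coe, hb2])
  have hcb : Nonempty (X ≃ b) := by
    have : Fintype b := FiniteDimensional.fintypeBasisIndex β
    refine ⟨Fintype.equivOfCardEq ?_⟩
    rw [← Module.finrank_eq_card_basis β, Module.finrank_fintype_fun_eq_card]
  obtain ⟨e⟩ := hcb
  choose γ hγ using fun x : X => hb1 (e x).2
  let C : Matrix X X ℤ := Matrix.of fun x z => A (γ x) z
  have hA : C.det ≠ 0 := by
    intro h0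
    have h1 : (C.map (Int.castRingHom (ZMod p))).det = 0 := by
      rw [← RingHom.mapMatrix_apply, ← RingHom.map_det, h0, map_zero]
    have h2 : LinearIndependent (ZMod p) (fun x => (C.map (Int.castRingHom (ZMod p))) x) := by
      have h3 : (fun x => (C.map (Int.castRingHom (ZMod p))) x) = fun x => ((e x : b) : X → ZMod p) := by
        funext x z
        rw [← hγ x]
        simp [C, v, Matrix.map_apply]
      rw [h3]
      exact hb3.comp e e.injective
    have h3 : IsUnit (C.map (Int.castRingHom (ZMod p))) := Matrix.linearIndependent_rows_iff_isUnit.1 h2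
    have h4 := (Matrix.isUnit_iff_isUnit_det _).1 h3
    rw [h1] at h4
    exact not_isUnit_zero h4
  have hC : (C.map (Int.castRingHom ℂ)).det ≠ 0 := by
    rw [← RingHom.mapMatrix_apply, ← RingHom.map_det]
    simpa using hA
  have h4 : (C.map (Int.castRingHom ℂ)).mulVec u = 0 := by
    funext x
    have h5 := hu (γ x)
    simpa [Matrix.mulVec, dotProduct, C] using h5
  exact Matrix.eq_zero_of_mulVec_eq_zero hC h4

end Pool.Agent.H943.KF
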