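import Mathlib
import Pool.Agent.H943.KF.Comb
import Pool.Agent.H943.KS.Comb

/-!
# Signatures which are definite outside one pair of places
-/

set_option autoImplicit false
set_option linter.unusedSectionVars false

open Finset MulAction

namespace Pool.Agent.H943.KF

open Pool.Agent.H943.KS (Sig Good)

/-- A signature over a base which is definite outside the place `y0` and its conjugate. -/
structure SigA {G X Y : Type} [Group G] [MulAction G X] [MulAction G Y] [Fintype X] [Fintype Y]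
    [DecidableEq Y]
    (H : Subgroup G) (π : X → Y) (c : X → X) (c' : Y → Y) (r : X → ℕ) (n' : ℕ)
    (t : Y → ℕ) (N : ℕ) (y0 : Y) : Prop where
  normal : H.Normal
  triv : ∀ σ ∈ H, ∀ y : Y, σ • y = y
  eqv : ∀ (σ : G) x, π (σ • x) = σ • π x
  tr : ∀ x x' : X, ∃ σ : G, σ • x = x'
  surj : ∀ y, ∃ x, π x = y
  cc : ∀ x, c (c x) = x
  cg : ∀ (σ : G) x, c (σ • x) = σ • c x
  pc : ∀ x, π (c x) = c' (π x)
  ne : ∀ y, c' y ≠ y
  trH : ∀ x z, π x = π z → ∃ σ ∈ H, σ • x = z
  sum : ∀ x, r x + r (c x) = n'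
  fib : ∀ y, ∑ x : {x // π x = y}, r x = t y
  card : ∀ y, n' * Fintype.card {x // π x = y} = N
  def0 : ∀ y, y ≠ y0 → y ≠ c' y0 → t y = 0 ∨ t y = N
  good : Good (t y0) N

section

variable {G X Y : Type} [Group G] [MulAction G X] [MulAction G Y] [Fintype X] [Fintype Y]
  [DecidableEq Y] {H : Subgroup G} {π : X → Y} {c : X → X} {c' : Y → Y}
  {r : X → ℕ} {n' : ℕ} {t : Y → ℕ} {N : ℕ} {y0 : Y}
  (S : SigA H π c c' r n' t N y0)
include S

namespace SigA

theorem c'_c' (y : Y) : c' (c' y) = y := by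
  obtain ⟨x, rfl⟩ := S.surj y
  rw [← S.pc, ← S.pc, S.cc]

theorem c'_g (σ : G) (y : Y) : c' (σ • y) = σ • c' y := by
  obtain ⟨x, rfl⟩ := S.surj y
  rw [← S.eqv, ← S.pc, S.cg, S.eqv, S.pc]

/-- the stabilizer of the pair -/
def G0 (G : Type) {Y : Type} [Group G] [MulAction G Y] (c' : Y → Y) (y0 : Y) : Subgroup G where
  carrier := {σ | ∀ y, (σ • y = y0 ∨ σ • y = c' y0) ↔ (y = y0 ∨ y = c' y0)}
  mul_mem' := fun {a b} ha hb y => by rw [mul_smul, ha, hb]
  one_mem' := fun y => by rw [one_smul]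
  inv_mem' := fun {a} ha y => by
    have h1 := ha (a⁻¹ • y)
    rw [smul_inv_smul] at h1
    exact h1.symm

theorem mem_G0 {σ : G} {y : Y} (hy : y = y0 ∨ y = c' y0) (h : σ • y = y0 ∨ σ • y = c' y0) :
    σ ∈ G0 G c' y0 := by
  have h1 : ∀ z, (z = y0 ∨ z = c' y0) ↔ (z = y ∨ z = c' y) := by
    intro z
    rcases hy with rfl | rfl
    · exact Iff.rfl
    · rw [S.c'_c']
      tauto
  have h2 : ∀ z, (z = y0 ∨ z = c' y0) ↔ (z = σ • y ∨ z = σ • c' y) := by
    intro z
    rw [← S.c'_g]
    rcases h with h | h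
    · rw [h]
    · rw [h, S.c'_c']
      tauto
  intro z
  rw [h2, h1]
  constructor
  · rintro (h3 | h3)
    · exact Or.inl (MulAction.injective σ h3)
    · exact Or.inr (MulAction.injective σ h3)
  · rintro (rfl | rfl)
    · exact Or.inl rfl
    · exact Or.inr rfl

/-- the places over the pair -/
abbrev X0 {X Y : Type} (π : X → Y) (c' : Y → Y) (y0 : Y) : Type := {x : X // π x = y0 ∨ π x = c' y0}

/-- the action of the stabilizer -/
@[reducible] def act0 : MulAction (G0 G c' y0) (X0 π c' y0) where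
  smul := fun σ x => ⟨(σ : G) • x.1, by
    rw [S.eqv]
    exact (σ.2 _).2 x.2⟩
  one_smul := fun x => Subtype.ext (one_smul G x.1)
  mul_smul := fun σ τ x => Subtype.ext (mul_smul (σ : G) (τ : G) x.1)

/-- complex conjugation -/
def c0 (x : X0 π c' y0) : X0 π c' y0 := ⟨c x.1, by
  rw [S.pc]
  rcases x.2 with h | h
  · rw [h]
    exact Or.inr rfl
  · rw [h, S.c'_c']
    exact Or.inl rfl⟩

theorem sig0 : letI := S.act0; Sig (G0 G c' y0) S.c0 (fun x : X0 π c' y0 => π x.1 = y0)
    (fun x => r x.1) n' := by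
  let _ := S.act0
  refine
    { cc := fun x => Subtype.ext (S.cc x.1)
      cg := fun σ x => Subtype.ext (S.cg (σ : G) x.1)
      sum := fun x => S.sum x.1
      Pc := fun x => ?_
      Pg := fun σ x y h => ?_
      tr := fun x y => ?_
      ne := ?_ }
  · change π (c x.1) = y0 ↔ ¬ π x.1 = y0
    rw [S.pc]
    rcases x.2 with h | h
    · rw [h]
      exact ⟨fun h1 => absurd h1 (S.ne y0), fun h1 => absurd rfl h1⟩
    · rw [h, S.c'_c']
      exact ⟨fun _ => S.ne y0, fun _ => rfl⟩
  · have h1 : π x.1 = π y.1 := by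
      rcases x.2 with h2 | h2
      · rw [h2]
        exact (h.1 h2).symm
      · rcases y.2 with h3 | h3
        · exact absurd ((h.2 h3).symm.trans h2).symm (S.ne y0)
        · rw [h2, h3]
    change π ((σ : G) • x.1) = y0 ↔ π ((σ : G) • y.1) = y0
    rw [S.eqv, S.eqv, h1]
  · obtain ⟨σ, hσ⟩ := S.tr x.1 y.1
    refine ⟨⟨σ, S.mem_G0 (y := π x.1) x.2 ?_⟩, Subtype.ext hσ⟩
    rw [← S.eqv, hσ]
    exact y.2
  · obtain ⟨x, hx⟩ := S.surj y0
    exact ⟨⟨x, Or.inl hx⟩, hx⟩

/-- the fibre -/
def fibEquiv (π : X → Y) (c' : Y → Y) (y0 : Y) :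
    {x : X0 π c' y0 // π x.1 = y0} ≃ {x : X // π x = y0} where
  toFun := fun x => ⟨x.1.1, x.2⟩
  invFun := fun x => ⟨⟨x.1, Or.inl x.2⟩, x.2⟩
  left_inv := fun _ => rfl
  right_inv := fun _ => rfl

theorem good0 : Good (∑ x : {x : X0 π c' y0 // π x.1 = y0}, r x.1.1)
    (n' * Fintype.card {x : X0 π c' y0 // π x.1 = y0}) := by
  have h1 : ∑ x : {x : X0 π c' y0 // π x.1 = y0}, r x.1.1 = t y0 := by
    rw [← S.fib]
    exact Fintype.sum_equiv (fibEquiv π c' y0) _ _ fun x => rfl
  rw [h1, Fintype.card_congr (fibEquiv π c' y0), S.card]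
  exact S.good

theorem t0_ne : t y0 ≠ 0 ∧ t y0 ≠ N := by
  have h1 := S.good.coprime
  have h2 := S.good.1
  constructor
  · intro h
    rw [h, Nat.coprime_zero_left] at h1
    omega
  · intro h
    rw [h, Nat.coprime_self] at h1
    omega

theorem r_le (x : X) : r x ≤ n' := by
  have := S.sum x
  omega

/-- At the definite places the multiplicity is constant on the fibre. -/
theorem r_def {x z : X} (hxz : π x = π z) (h1 : π x ≠ y0) (h2 : π x ≠ c' y0) : r x = r z := by
  classical
  rcases S.def0 _ h1 h2 with h | h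
  · rw [← S.fib, Finset.sum_eq_zero_iff] at h
    have h3 := h ⟨x, rfl⟩ (mem_univ _)
    have h4 := h ⟨z, hxz.symm⟩ (mem_univ _)
    change r x = 0 at h3
    change r z = 0 at h4
    rw [h3, h4]
  · have h3 : ∀ w : {w // π w = π x}, r w.1 = n' := by
      have h5 : ∑ w : {w // π w = π x}, (n' - r w.1) = 0 := by
        have h6 : ∑ w : {w // π w = π x}, (n' - r w.1) + ∑ w : {w // π w = π x}, r w.1 =
            n' * Fintype.card {w // π w = π x} := by
          rw [← sum_add_distrib, sum_congr rfl fun w _ => Nat.sub_add_cancel (S.r_le w.1), sum_const,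
            card_univ, smul_eq_mul, mul_comm]
        rw [S.fib, S.card, h] at h6
        omega
      intro w
      have h6 := Finset.sum_eq_zero_iff.1 h5 w (mem_univ _)
      have h7 := S.r_le w.1
      omega
    rw [h3 ⟨x, rfl⟩, h3 ⟨z, hxz.symm⟩]

theorem r_def' {x : X} (h1 : π x ≠ y0) (h2 : π x ≠ c' y0) : r x * r (c x) = 0 := by
  classical
  rcases S.def0 _ h1 h2 with h | h
  · rw [← S.fib, Finset.sum_eq_zero_iff] at h
    have h3 := h ⟨x, rfl⟩ (mem_univ _)
    change r x = 0 at h3
    rw [h3, zero_mul]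
  · have h5 : ∑ w : {w // π w = π x}, (n' - r w.1) = 0 := by
      have h6 : ∑ w : {w // π w = π x}, (n' - r w.1) + ∑ w : {w // π w = π x}, r w.1 =
          n' * Fintype.card {w // π w = π x} := by
        rw [← sum_add_distrib, sum_congr rfl fun w _ => Nat.sub_add_cancel (S.r_le w.1), sum_const,
          card_univ, smul_eq_mul, mul_comm]
      rw [S.fib, S.card, h] at h6
      omega
    have h6 := Finset.sum_eq_zero_iff.1 h5 ⟨x, rfl⟩ (mem_univ _)
    change n' - r x = 0 at h6
    have h7 := S.sum x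
    have h8 : r (c x) = 0 := by
      have := S.r_le x
      omega
    rw [h8, mul_zero]

/-- every place can be moved to the pair -/
theorem to0 (x : X) : ∃ σ : G, π (σ • x) = y0 := by
  obtain ⟨z, hz⟩ := S.surj y0
  obtain ⟨σ, hσ⟩ := S.tr x z
  exact ⟨σ, by rw [hσ, hz]⟩

/-- **Coprimality.** -/
theorem cop (x : X) : ∃ σ : G, Nat.Coprime (r (σ • x)) (r (c (σ • x))) := by
  classical
  obtain ⟨σ, hσ⟩ := S.to0 x
  let _ := S.act0
  obtain ⟨τ, hτ⟩ := Pool.Agent.H943.KS.cop S.sig0 S.good0 ⟨σ • x, Or.inl hσ⟩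
  refine ⟨(τ : G) * σ, ?_⟩
  rw [mul_smul]
  exact hτ

/-- **Separation.** -/
theorem sep {x y : X} (h1 : y ≠ x) (h2 : y ≠ c x) (hn : n' ≠ 1)
    (h : ∀ σ : G, r (σ • x) = r (σ • y) ∨
      (r (σ • x) * r (c (σ • x)) = 0 ∧ r (σ • y) * r (c (σ • y)) = 0)) : False := by
  classical
  obtain ⟨σ, hσ⟩ := S.to0 x
  by_cases h3 : π (σ • y) = y0 ∨ π (σ • y) = c' y0
  · let _ := S.act0
    refine Pool.Agent.H943.KS.sep S.sig0 S.good0 (x := ⟨σ • x, Or.inl hσ⟩) (y := ⟨σ • y, h3⟩)
      ?_ ?_ hn ?_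
    · intro h4
      exact h1 (MulAction.injective σ (congrArg Subtype.val h4))
    · intro h4
      have h5 : σ • y = c (σ • x) := congrArg Subtype.val h4
      rw [S.cg] at h5
      exact h2 (MulAction.injective σ h5)
    · intro τ
      have h4 := h ((τ : G) * σ)
      rw [mul_smul, mul_smul] at h4
      exact h4
  · push Not at h3
    let _ := S.act0
    obtain ⟨τ, hτ⟩ := Pool.Agent.H943.KS.cop S.sig0 S.good0 ⟨σ • x, Or.inl hσ⟩
    change Nat.Coprime (r ((τ : G) • σ • x)) (r (c ((τ : G) • σ • x))) at hτ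
    have h4 := h ((τ : G) * σ)
    rw [mul_smul, mul_smul] at h4
    have h5 := S.sum ((τ : G) • σ • x)
    have hn0 : n' ≠ 0 := by
      rintro rfl
      have := S.card y0
      rw [zero_mul] at this
      have := S.good.1
      omega
    have h6 : r ((τ : G) • σ • x) * r (c ((τ : G) • σ • x)) ≠ 0 := by
      intro h7
      rcases mul_eq_zero.1 h7 with h8 | h8
      · rw [h8, Nat.coprime_zero_left] at hτ
        omega
      · rw [h8, Nat.coprime_zero_right] at hτ
        omega
    have h7 : ¬ (π ((τ : G) • σ • y) = y0 ∨ π ((τ : G) • σ • y) = c' y0) := by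
      rw [S.eqv, τ.2]
      tauto
    push Not at h7
    have h8 := S.r_def' h7.1 h7.2
    rcases h4 with h4 | ⟨h4, -⟩
    · have h9 := S.sum ((τ : G) • σ • y)
      rcases mul_eq_zero.1 h8 with h10 | h10
      · rw [h10] at h4
        apply h6
        rw [h4, zero_mul]
      · apply h6
        have h11 : r (c ((τ : G) • σ • x)) = 0 := by omega
        rw [h11, mul_zero]
    · exact h6 h4

theorem rc (x : X) : (r (c x) : ℂ) = n' - r x := by
  rw [← S.sum x]
  push_cast
  ring

/-- The subgroup acts trivially on the relations, over the pair. -/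
theorem hinv0 {lam : X → ℂ} (hodd : ∀ x, lam (c x) = - lam x)
    (h : ∀ σ : G, ∑ x, ((r (σ • x) : ℂ) - r (c (σ • x))) * lam x = 0) {h0 : G} (hh : h0 ∈ H)
    {x : X} (hx : π x = y0 ∨ π x = c' y0) : lam (h0 • x) = lam x := by
  classical
  let _ := S.act0
  have key := Pool.Agent.H943.KS.nd S.sig0 S.good0
    (fun x : X0 π c' y0 => lam (h0 • x.1) - lam x.1) (by
      intro x
      change lam (h0 • c x.1) - lam (c x.1) = _
      rw [← S.cg, hodd, hodd]
      ring) (by
      intro τ
      let w : X → ℂ := fun x => (r ((τ : G) • x) : ℂ) - r (c ((τ : G) • x))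
      let w' : X → ℂ := fun x => if (π x = y0 ∨ π x = c' y0) then 0 else w x
      have hπ : ∀ x, π (h0⁻¹ • x) = π x := by
        intro x
        rw [S.eqv, S.triv _ (H.inv_mem hh)]
      have hw' : ∀ x, w' (h0⁻¹ • x) = w' x := by
        intro x
        simp only [w', hπ]
        by_cases h1 : π x = y0 ∨ π x = c' y0
        · rw [if_pos h1, if_pos h1]
        · rw [if_neg h1, if_neg h1]
          have h2 : ¬ (π ((τ : G) • x) = y0 ∨ π ((τ : G) • x) = c' y0) := by
            rw [S.eqv, τ.2]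
            exact h1
          push Not at h2
          have h3 : r ((τ : G) • h0⁻¹ • x) = r ((τ : G) • x) := by
            symm
            refine S.r_def ?_ h2.1 h2.2
            rw [S.eqv, S.eqv, hπ]
          simp only [w, S.rc, h3]
      have e1 : ∑ x, w x * (lam (h0 • x) - lam x) = 0 := by
        have e2 : ∑ x, w x * lam (h0 • x) = 0 := by
          rw [← h ((τ : G) * h0⁻¹)]
          refine Fintype.sum_equiv (MulAction.toPerm h0) _ _ fun x => ?_
          rw [MulAction.toPerm_apply, mul_smul, inv_smul_smul]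
        rw [← sub_eq_zero.2 (e2.trans (h (τ : G)).symm), ← sum_sub_distrib]
        refine sum_congr rfl fun x _ => ?_
        rw [mul_sub]
      have e3 : ∑ x, w' x * (lam (h0 • x) - lam x) = 0 := by
        have e4 : ∑ x, w' x * lam (h0 • x) = ∑ x, w' x * lam x := by
          refine Fintype.sum_equiv (MulAction.toPerm h0) _ _ fun x => ?_
          rw [MulAction.toPerm_apply, ← hw' (h0 • x), inv_smul_smul]
        rw [← sub_eq_zero.2 e4, ← sum_sub_distrib]
        refine sum_congr rfl fun x _ => ?_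
        rw [mul_sub]
      have e5 : ∑ x, (if (π x = y0 ∨ π x = c' y0) then w x * (lam (h0 • x) - lam x) else 0) = 0 := by
        have e6 : ∑ x, (if (π x = y0 ∨ π x = c' y0) then w x * (lam (h0 • x) - lam x) else 0) =
            ∑ x, w x * (lam (h0 • x) - lam x) - ∑ x, w' x * (lam (h0 • x) - lam x) := by
          rw [← sum_sub_distrib]
          refine sum_congr rfl fun x _ => ?_
          by_cases h1 : π x = y0 ∨ π x = c' y0
          · simp only [w', if_pos h1]
            ring
          · simp only [w', if_neg h1]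
            ring
        rw [e6, e1, e3, sub_zero]
      rw [← sum_filter] at e5
      rw [← e5]
      exact (Finset.sum_subtype (univ.filter fun x : X => π x = y0 ∨ π x = c' y0)
        (fun x => by simp) (fun x => w x * (lam (h0 • x) - lam x))).symm)
  have h1 := congrFun key ⟨x, hx⟩
  exact sub_eq_zero.1 h1

/-- The subgroup acts trivially on the relations. -/
theorem hinv {lam : X → ℂ} (hodd : ∀ x, lam (c x) = - lam x)
    (h : ∀ σ : G, ∑ x, ((r (σ • x) : ℂ) - r (c (σ • x))) * lam x = 0) {h0 : G} (hh : h0 ∈ H)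
    (x : X) : lam (h0 • x) = lam x := by
  obtain ⟨σ, hσ⟩ := S.to0 x
  have h1 := S.hinv0 (lam := fun z => lam (σ⁻¹ • z)) (by
      intro z
      rw [← S.cg, hodd]) (by
      intro τ
      rw [← h (τ * σ)]
      refine Fintype.sum_equiv (MulAction.toPerm σ⁻¹) _ _ fun z => ?_
      rw [MulAction.toPerm_apply, mul_smul, smul_inv_smul])
    (h0 := σ * h0 * σ⁻¹) (S.normal.conj_mem _ hh σ) (x := σ • x) (Or.inl hσ)
  change lam (σ⁻¹ • (σ * h0 * σ⁻¹) • σ • x) = lam (σ⁻¹ • σ • x) at h1
  rw [inv_smul_smul, mul_smul, inv_smul_smul, mul_smul, inv_smul_smul] at h1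
  exact h1

theorem t_sum (y : Y) : t y + t (c' y) = N := by
  classical
  have h1 : ∑ x : {x // π x = c' y}, r x = ∑ x : {x // π x = y}, r (c x) := by
    refine Fintype.sum_equiv
      { toFun := fun x => ⟨c x.1, by rw [S.pc, x.2, S.c'_c']⟩
        invFun := fun x => ⟨c x.1, by rw [S.pc, x.2]⟩
        left_inv := fun x => Subtype.ext (S.cc x.1)
        right_inv := fun x => Subtype.ext (S.cc x.1) } _ _ fun x => ?_
    change r x.1 = r (c (c x.1))
    rw [S.cc]
  rw [← S.fib, ← S.fib, h1, ← sum_add_distrib, sum_congr rfl fun x _ => S.sum x.1, sum_const,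
    card_univ, smul_eq_mul, mul_comm, S.card]

/-- The relations between the places of the base. -/
theorem base_rel {lam : X → ℂ} (u : Y → ℂ) (hu : ∀ x, lam x = u (π x))
    (h : ∀ σ : G, ∑ x, ((r (σ • x) : ℂ) - r (c (σ • x))) * lam x = 0) (σ : G) :
    ∑ y, (2 * (t (σ • y) : ℂ) - N) * u y = 0 := by
  classical
  rw [← h σ, ← Finset.sum_fiberwise (s := univ) π
    (fun x => ((r (σ • x) : ℂ) - r (c (σ • x))) * lam x)]
  refine sum_congr rfl fun y _ => ?_
  have h2 : ∀ x ∈ univ.filter (fun x => π x = y), ((r (σ • x) : ℂ) - r (c (σ • x))) * lam x =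
      (2 * (r (σ • x) : ℂ) - n') * u y := by
    intro x hx
    rw [hu x, (mem_filter.1 hx).2, S.rc]
    ring
  rw [sum_congr rfl h2, ← sum_mul]
  congr 1
  have h3 : ∑ x ∈ univ.filter (fun x => π x = y), (r (σ • x) : ℂ) = t (σ • y) := by
    rw [← S.fib, Nat.cast_sum, ← Finset.sum_subtype (univ.filter fun x => π x = σ • y)
      (fun x => by simp) (fun x => (r x : ℂ))]
    refine Finset.sum_bij' (fun x _ => σ • x) (fun x _ => σ⁻¹ • x) ?_ ?_ ?_ ?_ ?_
    · intro x hx
      rw [mem_filter] at hx ⊢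
      exact ⟨mem_univ _, by rw [S.eqv, hx.2]⟩
    · intro x hx
      rw [mem_filter] at hx ⊢
      exact ⟨mem_univ _, by rw [S.eqv, hx.2, inv_smul_smul]⟩
    · intro x _
      exact inv_smul_smul σ x
    · intro x _
      exact smul_inv_smul σ x
    · intro x _
      rfl
  have h4 : (n' : ℂ) * (univ.filter fun x => π x = y).card = N := by
    have h5 := S.card y
    rw [Fintype.card_subtype] at h5
    exact_mod_cast h5
  rw [sum_sub_distrib, ← mul_sum, h3, sum_const, nsmul_eq_mul, ← h4]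
  ring

theorem trY (y y' : Y) : ∃ σ : G, σ • y = y' := by
  obtain ⟨x, rfl⟩ := S.surj y
  obtain ⟨x', rfl⟩ := S.surj y'
  obtain ⟨σ, hσ⟩ := S.tr x x'
  exact ⟨σ, by rw [← S.eqv, hσ]⟩

theorem rel_odd {p : ℕ} (hp : p.Prime) (hp2 : p ≠ 2) (hpN : p ∣ N) (u : Y → ℂ)
    (hodd : ∀ y, u (c' y) = - u y) (h : ∀ σ : G, ∑ y, (2 * (t (σ • y) : ℂ) - N) * u y = 0) :
    u = 0 := by
  classical
  have : Fact p.Prime := ⟨hp⟩
  have ht : (t y0 : ZMod p) ≠ 0 := by
    intro h1
    rw [ZMod.natCast_eq_zero_iff] at h1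
    have h2 := Nat.dvd_gcd h1 hpN
    rw [S.good.coprime] at h2
    exact hp.one_lt.ne' (Nat.dvd_one.1 h2)
  have hN : (N : ZMod p) = 0 := (ZMod.natCast_eq_zero_iff _ _).2 hpN
  have h4 : (4 : ZMod p) ≠ 0 := by
    intro h1
    have h2 : ((4 : ℕ) : ZMod p) = 0 := by exact_mod_cast h1
    rw [ZMod.natCast_eq_zero_iff] at h2
    have h3 : p ∣ 2 ^ 2 := h2
    exact hp2 ((Nat.prime_dvd_prime_iff_eq hp Nat.prime_two).1 (hp.dvd_of_dvd_pow h3))
  let A : G ⊕ Y → Y → ℤ := Sum.elim (fun σ y => 2 * (t (σ • y) : ℤ) - N)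
    (fun z y => (if y = z then 1 else 0) + (if y = c' z then 1 else 0))
  refine int_kernel (p := p) A ?_ u ?_
  · intro v hv
    have hodd' : ∀ y, v (c' y) = - v y := by
      intro y
      have h1 := hv (Sum.inr y)
      simp only [A, Sum.elim_inr, Int.cast_add, Int.cast_ite, Int.cast_one, Int.cast_zero, add_mul,
        sum_add_distrib, ite_mul, one_mul, zero_mul, sum_ite_eq', mem_univ, if_true] at h1
      exact eq_neg_of_add_eq_zero_right h1
    funext y
    obtain ⟨σ, hσ⟩ := S.trY y y0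
    have h1 := hv (Sum.inl σ)
    simp only [A, Sum.elim_inl, Int.cast_sub, Int.cast_mul, Int.cast_ofNat, Int.cast_natCast, hN,
      sub_zero] at h1
    rw [Finset.sum_eq_add y (c' y) (S.ne y).symm ?_ (fun h => absurd (mem_univ _) h)
      (fun h => absurd (mem_univ _) h)] at h1
    · have h5 : (t (c' y0) : ZMod p) = - t y0 := by
        have h6 := congrArg (fun m : ℕ => (m : ZMod p)) (S.t_sum y0)
        simp only [Nat.cast_add] at h6
        rw [hN] at h6
        linear_combination h6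
      rw [← S.c'_g, hσ, h5, hodd'] at h1
      have h6 : (4 : ZMod p) * t y0 * v y = 0 := by
        rw [← h1]
        ring
      exact (mul_eq_zero.1 h6).resolve_left (mul_ne_zero h4 ht)
    · rintro z - ⟨hz1, hz2⟩
      have h5 : (t (σ • z) : ZMod p) = 0 := by
        rcases S.def0 (σ • z) (by
            rw [← hσ]
            exact fun h => hz1 (MulAction.injective σ h)) (by
            rw [← hσ, S.c'_g]
            exact fun h => hz2 (MulAction.injective σ h)) with h6 | h6
        · rw [h6, Nat.cast_zero]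
        · rw [h6, hN]
      rw [h5, mul_zero, zero_mul]
  · rintro (σ | z)
    · rw [← h σ]
      refine sum_congr rfl fun y _ => ?_
      simp only [A, Sum.elim_inl, Int.cast_sub, Int.cast_mul, Int.cast_ofNat, Int.cast_natCast]
    · simp only [A, Sum.elim_inr, Int.cast_add, Int.cast_ite, Int.cast_one, Int.cast_zero, add_mul,
        sum_add_distrib, ite_mul, one_mul, zero_mul, sum_ite_eq', mem_univ, if_true]
      rw [hodd]
      ring

theorem exists_half : ∃ s : Y → ℤ, (∀ y, s y + s (c' y) = 1) := by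
  classical
  let e := Fintype.equivFin Y
  refine ⟨fun y => if e y < e (c' y) then 1 else 0, fun y => ?_⟩
  change (if e y < e (c' y) then (1 : ℤ) else 0) + (if e (c' y) < e (c' (c' y)) then 1 else 0) = 1
  rw [S.c'_c']
  rcases lt_trichotomy (e y) (e (c' y)) with h | h | h
  · rw [if_pos h, if_neg h.not_gt, add_zero]
  · exact absurd (e.injective h).symm (S.ne y)
  · rw [if_neg h.not_gt, if_pos h, zero_add]

theorem rel_two {M : ℕ} (hN : N = 4 * M) (u : Y → ℂ)
    (hodd : ∀ y, u (c' y) = - u y) (h : ∀ σ : G, ∑ y, (2 * (t (σ • y) : ℂ) - N) * u y = 0) :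
    u = 0 := by
  classical
  have : Fact (Nat.Prime 2) := ⟨Nat.prime_two⟩
  have ht : (t y0 : ZMod 2) = 1 := by
    have h1 : ¬ 2 ∣ t y0 := by
      intro h1
      have h2 := Nat.dvd_gcd h1 (show 2 ∣ N from ⟨2 * M, by omega⟩)
      rw [S.good.coprime] at h2
      omega
    have h2 : t y0 % 2 = 1 := by omega
    have h3 := (ZMod.natCast_eq_natCast_iff' (t y0) 1 2).2 (by omega)
    rw [h3, Nat.cast_one]
  have h2z : (2 : ZMod 2) = 0 := rfl
  obtain ⟨s, hs⟩ := S.exists_half
  have tc : ∀ y, (t (c' y) : ℂ) = N - t y := by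
    intro y
    rw [← S.t_sum y]
    push_cast
    ring
  let A : G ⊕ Y → Y → ℤ := Sum.elim (fun σ y => s y * ((t (σ • y) : ℤ) - 2 * M))
    (fun z y => (if y = z then 1 else 0) + (if y = c' z then 1 else 0))
  refine int_kernel (p := 2) A ?_ u ?_
  · intro v hv
    have hodd' : ∀ y, v (c' y) = - v y := by
      intro y
      have h1 := hv (Sum.inr y)
      simp only [A, Sum.elim_inr, Int.cast_add, Int.cast_ite, Int.cast_one, Int.cast_zero, add_mul,
        sum_add_distrib, ite_mul, one_mul, zero_mul, sum_ite_eq', mem_univ, if_true] at h1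
      exact eq_neg_of_add_eq_zero_right h1
    have hneg : ∀ a : ZMod 2, - a = a := fun a => ZMod.neg_eq_self_mod_two a
    funext y
    obtain ⟨σ, hσ⟩ := S.trY y y0
    have h1 := hv (Sum.inl σ)
    simp only [A, Sum.elim_inl, Int.cast_sub, Int.cast_mul, Int.cast_ofNat, Int.cast_natCast, h2z,
      zero_mul, sub_zero] at h1
    rw [Finset.sum_eq_add y (c' y) (S.ne y).symm ?_ (fun h => absurd (mem_univ _) h)
      (fun h => absurd (mem_univ _) h)] at h1
    · have h5 : (t (c' y0) : ZMod 2) = 1 := by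
        have h6 := congrArg (fun m : ℕ => (m : ZMod 2)) (S.t_sum y0)
        simp only [Nat.cast_add] at h6
        rw [hN, ht, Nat.cast_mul] at h6
        have h7 : ((4 : ℕ) : ZMod 2) = 0 := rfl
        rw [h7, zero_mul] at h6
        rw [← hneg 1]
        linear_combination h6
      rw [← S.c'_g, hσ, h5, ht, mul_one, mul_one, hodd', hneg, ← add_mul] at h1
      have h6 : ((s y : ℤ) : ZMod 2) + ((s (c' y) : ℤ) : ZMod 2) = 1 := by
        rw [← Int.cast_add, hs, Int.cast_one]
      rw [h6, one_mul] at h1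
      exact h1
    · rintro z - ⟨hz1, hz2⟩
      have h5 : (t (σ • z) : ZMod 2) = 0 := by
        rcases S.def0 (σ • z) (by
            rw [← hσ]
            exact fun h => hz1 (MulAction.injective σ h)) (by
            rw [← hσ, S.c'_g]
            exact fun h => hz2 (MulAction.injective σ h)) with h6 | h6
        · rw [h6, Nat.cast_zero]
        · rw [h6, hN, Nat.cast_mul]
          have h7 : ((4 : ℕ) : ZMod 2) = 0 := rfl
          rw [h7, zero_mul]
      rw [h5, mul_zero, zero_mul]
  · rintro (σ | z)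
    · have e1 : ∑ y, ((s y : ℤ) : ℂ) * ((2 * (t (σ • y) : ℂ) - N) * u y) +
          ∑ y, ((s (c' y) : ℤ) : ℂ) * ((2 * (t (σ • y) : ℂ) - N) * u y) = 0 := by
        rw [← sum_add_distrib, ← h σ]
        refine sum_congr rfl fun y _ => ?_
        have h6 : ((s y : ℤ) : ℂ) + ((s (c' y) : ℤ) : ℂ) = 1 := by
          rw [← Int.cast_add, hs, Int.cast_one]
        rw [← add_mul, h6, one_mul]
      have e2 : ∑ y, ((s (c' y) : ℤ) : ℂ) * ((2 * (t (σ • y) : ℂ) - N) * u y) =
          ∑ y, ((s y : ℤ) : ℂ) * ((2 * (t (σ • y) : ℂ) - N) * u y) := by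
        refine Fintype.sum_equiv
          { toFun := c', invFun := c', left_inv := S.c'_c', right_inv := S.c'_c' } _ _ fun y => ?_
        change _ = ((s (c' y) : ℤ) : ℂ) * ((2 * (t (σ • c' y) : ℂ) - N) * u (c' y))
        rw [← S.c'_g, tc, hodd]
        ring
      rw [e2, ← two_mul] at e1
      have e3 := (mul_eq_zero.1 e1).resolve_left two_ne_zero
      have e4 : ∑ y, ((s y : ℤ) : ℂ) * ((2 * (t (σ • y) : ℂ) - N) * u y) =
          2 * ∑ y, ((A (Sum.inl σ) y : ℤ) : ℂ) * u y := by
        rw [mul_sum]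
        refine sum_congr rfl fun y _ => ?_
        simp only [A, Sum.elim_inl, Int.cast_sub, Int.cast_mul, Int.cast_ofNat, Int.cast_natCast, hN,
          Nat.cast_mul, Nat.cast_ofNat]
        ring
      rw [e3] at e4
      exact (mul_eq_zero.1 e4.symm).resolve_left two_ne_zero
    · simp only [A, Sum.elim_inr, Int.cast_add, Int.cast_ite, Int.cast_one, Int.cast_zero, add_mul,
        sum_add_distrib, ite_mul, one_mul, zero_mul, sum_ite_eq', mem_univ, if_true]
      rw [hodd]
      ring

/-- **Nondegeneracy.** -/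
theorem nd (lam : X → ℂ) (hodd : ∀ x, lam (c x) = - lam x)
    (h : ∀ σ : G, ∑ x, ((r (σ • x) : ℂ) - r (c (σ • x))) * lam x = 0) : lam = 0 := by
  classical
  choose s hs using S.surj
  have hconst : ∀ x, lam x = lam (s (π x)) := by
    intro x
    obtain ⟨σ, hσ, h1⟩ := S.trH x (s (π x)) (hs _).symm
    rw [← h1, S.hinv hodd h hσ]
  have huodd : ∀ y, lam (s (c' y)) = - lam (s y) := by
    intro y
    rw [← hodd (s y), hconst (c (s y)), S.pc, hs]
  have hrel := S.base_rel (fun y => lam (s y)) hconst h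
  have hu : (fun y => lam (s y)) = 0 := by
    have h3 := S.good.1
    by_cases h1 : ∃ p : ℕ, p.Prime ∧ p ≠ 2 ∧ p ∣ N
    · obtain ⟨p, hp, hp2, hpN⟩ := h1
      exact S.rel_odd hp hp2 hpN _ huodd hrel
    · push Not at h1
      have h2 : N = 2 ^ N.primeFactorsList.length := by
        refine Nat.eq_prime_pow_of_unique_prime_dvd (by omega) fun {d} hd hdN => ?_
        by_contra hne
        exact h1 d hd hne hdN
      obtain ⟨M, hM⟩ : 4 ∣ N := by
        obtain ⟨k, hk⟩ : ∃ k, N = 2 ^ k := ⟨_, h2⟩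
        rcases k with _ | _ | k
        · rw [pow_zero] at hk
          omega
        · rw [zero_add, pow_one] at hk
          omega
        · exact ⟨2 ^ k, by rw [hk, pow_add]; ring⟩
      exact S.rel_two hM _ huodd hrel
  funext x
  rw [hconst x]
  exact congrFun hu (π x)

end SigA

end

end Pool.Agent.H943.KF
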