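import Mathlib
import Pool.Agent.H943.KF.Comb

/-!
# Coprimality, separation and nondegeneracy
-/

set_option autoImplicit false
set_option linter.unusedSectionVars false

open Finset MulAction

namespace Pool.Agent.H943.KF

/-- A signature over a base. -/
structure SigF {G X Y : Type} [Group G] [MulAction G X] [MulAction G Y] [Fintype X] [Fintype Y]
    [DecidableEq Y]
    (H : Subgroup G) (p : ℕ) (π : X → Y) (c : X → X) (c' : Y → Y) (r : X → ℕ) (n' : ℕ)
    (t : Y → ℕ) : Prop extends Base H p π c c' where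
  odd : p ≠ 2
  sum : ∀ x, r x + r (c x) = n'
  pow : ∃ a, n' = p ^ a
  fib : ∀ y, ∑ x : {x // π x = y}, r x = t y
  gen : ∀ L : Y → ZMod p, (∀ y, L (c' y) = - L y) →
      (∀ σ : G, ∑ y, (t (σ • y) : ZMod p) * L y = 0) → L = 0

section

variable {G X Y : Type} [Group G] [MulAction G X] [MulAction G Y] [Fintype X] [Fintype Y]
  [DecidableEq Y] {H : Subgroup G} {p : ℕ} [hp : Fact p.Prime] {π : X → Y} {c : X → X} {c' : Y → Y}
  {r : X → ℕ} {n' : ℕ} {t : Y → ℕ}
  (S : SigF H p π c c' r n' t)
include S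

theorem odd_n : ¬ 2 ∣ n' := by
  intro h
  obtain ⟨a, rfl⟩ := S.pow
  have h1 := Nat.Prime.dvd_of_dvd_pow Nat.prime_two h
  exact S.odd ((Nat.prime_dvd_prime_iff_eq Nat.prime_two hp.out).1 h1).symm

theorem c_ne (x : X) : c x ≠ x := by
  intro h
  have h1 := S.sum x
  rw [h] at h1
  exact odd_n S ⟨r x, by omega⟩

theorem c'_c' (y : Y) : c' (c' y) = y := by
  obtain ⟨x, rfl⟩ := S.surj y
  rw [← S.pc, ← S.pc, S.cc]

theorem t_sum (y : Y) : t y + t (c' y) = n' * Fintype.card {x // π x = y} := by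
  classical
  have h1 : ∑ x : {x // π x = c' y}, r x = ∑ x : {x // π x = y}, r (c x) := by
    refine Fintype.sum_equiv
      { toFun := fun x => ⟨c x.1, by rw [S.pc, x.2, c'_c' S]⟩
        invFun := fun x => ⟨c x.1, by rw [S.pc, x.2]⟩
        left_inv := fun x => Subtype.ext (S.cc x.1)
        right_inv := fun x => Subtype.ext (S.cc x.1) } _ _ fun x => ?_
    change r x.1 = r (c (c x.1))
    rw [S.cc]
  rw [← S.fib, ← S.fib, h1, ← sum_add_distrib, sum_congr rfl fun x _ => S.sum x.1, sum_const,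
    card_univ, smul_eq_mul, mul_comm]

theorem c'_ne (y : Y) : c' y ≠ y := by
  intro h
  have h1 := t_sum S y
  rw [h] at h1
  obtain ⟨a, ha⟩ := S.pow
  obtain ⟨b, hb⟩ := S.card y
  rw [hb, ha, ← pow_add] at h1
  have h2 : 2 ∣ p ^ (a + b) := ⟨t y, by omega⟩
  have h3 := Nat.Prime.dvd_of_dvd_pow Nat.prime_two h2
  exact S.odd ((Nat.prime_dvd_prime_iff_eq Nat.prime_two hp.out).1 h3).symm

theorem two_ne : (2 : ZMod p) ≠ 0 := by
  intro h
  have h1 : ((2 : ℕ) : ZMod p) = 0 := by exact_mod_cast h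
  rw [ZMod.natCast_eq_zero_iff] at h1
  exact S.odd ((Nat.prime_dvd_prime_iff_eq hp.out Nat.prime_two).1 h1)

/-- The annihilator of the signature modulo `p`. -/
theorem annS (u : X → ZMod p) (hodd : ∀ x, u (c x) = - u x)
    (hu : ∀ σ : G, ∑ x, (r (σ • x) : ZMod p) * u x = 0) : u = 0 := by
  refine ann S.toBase (fun x => (r x : ZMod p)) (fun L h1 h2 => S.gen L h1 fun σ => ?_) u hodd hu
  rw [← h2 σ]
  refine sum_congr rfl fun y _ => ?_
  congr 1
  rw [← S.fib, Nat.cast_sum]

/-- The values of `t` at different points have different translates. -/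
theorem t_sep {y y' : Y} (h : y ≠ y') : ∃ σ : G, t (σ • y) ≠ t (σ • y') := by
  classical
  by_contra hcon
  push Not at hcon
  have hcg : ∀ (σ : G) (y : Y), c' (σ • y) = σ • c' y := by
    intro σ y
    obtain ⟨x, rfl⟩ := S.surj y
    rw [← S.eqv, ← S.pc, S.cg, S.eqv, S.pc]
  have hcard : ∀ (σ : G) (y : Y), Fintype.card {x // π x = σ • y} = Fintype.card {x // π x = y} := by
    intro σ y
    refine Fintype.card_congr
      { toFun := fun x => ⟨σ⁻¹ • x.1, by rw [S.eqv, x.2, inv_smul_smul]⟩
        invFun := fun x => ⟨σ • x.1, by rw [S.eqv, x.2]⟩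
        left_inv := fun x => Subtype.ext (smul_inv_smul σ x.1)
        right_inv := fun x => Subtype.ext (inv_smul_smul σ x.1) }
  obtain ⟨σ0, hσ0⟩ : ∃ σ : G, σ • y = y' := by
    obtain ⟨x, rfl⟩ := S.surj y
    obtain ⟨x', rfl⟩ := S.surj y'
    obtain ⟨σ, hσ⟩ := S.tr x x'
    exact ⟨σ, by rw [← S.eqv, hσ]⟩
  have hcy : Fintype.card {x // π x = y'} = Fintype.card {x // π x = y} := by
    rw [← hσ0, hcard]
  by_cases h1 : y' = c' y
  · have h2 := t_sum S y
    have h3 := hcon 1
    rw [one_smul, one_smul, h1] at h3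
    rw [← h3] at h2
    obtain ⟨a, ha⟩ := S.pow
    obtain ⟨b, hb⟩ := S.card y
    rw [hb, ha, ← pow_add] at h2
    have h4 : 2 ∣ p ^ (a + b) := ⟨t y, by omega⟩
    have h5 := Nat.Prime.dvd_of_dvd_pow Nat.prime_two h4
    exact S.odd ((Nat.prime_dvd_prime_iff_eq Nat.prime_two hp.out).1 h5).symm
  · have h2 : c' y' ≠ y := by
      intro h2
      apply h1
      rw [← h2, c'_c' S]
    have key := S.gen (Pi.single y 1 - Pi.single (c' y) 1 - Pi.single y' 1 + Pi.single (c' y') 1)
      (by
        intro z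
        have e1 : (c' z = y) ↔ (z = c' y) :=
          ⟨fun h => by rw [← h, c'_c' S], fun h => by rw [h, c'_c' S]⟩
        have e2 : (c' z = c' y) ↔ (z = y) :=
          ⟨fun h => by rw [← c'_c' S z, h, c'_c' S], fun h => by rw [h]⟩
        have e3 : (c' z = y') ↔ (z = c' y') :=
          ⟨fun h => by rw [← h, c'_c' S], fun h => by rw [h, c'_c' S]⟩
        have e4 : (c' z = c' y') ↔ (z = y') :=
          ⟨fun h => by rw [← c'_c' S z, h, c'_c' S], fun h => by rw [h]⟩
        simp only [Pi.add_apply, Pi.sub_apply, Pi.single_apply, e1, e2, e3, e4]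
        ring)
      (by
        intro σ
        simp only [Pi.add_apply, Pi.sub_apply, mul_add, mul_sub, sum_add_distrib, sum_sub_distrib,
          Pi.single_apply, mul_ite, mul_one, mul_zero, sum_ite_eq', mem_univ, if_true]
        have h3 := t_sum S (σ • y)
        have h4 := t_sum S (σ • y')
        rw [hcard, hcg] at h3 h4
        rw [hcy, ← h3, hcon σ] at h4
        have h5 : t (σ • c' y) = t (σ • c' y') := by omega
        rw [hcon σ, h5]
        ring)
    have h3 := congrFun key y
    simp only [Pi.add_apply, Pi.sub_apply, Pi.single_apply, if_true, Pi.zero_apply] at h3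
    rw [if_neg (c'_ne S y).symm, if_neg h, if_neg h2.symm] at h3
    simp at h3

/-- **Nondegeneracy.** -/
theorem ndF (lam : X → ℂ) (hodd : ∀ x, lam (c x) = - lam x)
    (h : ∀ σ : G, ∑ x, ((r (σ • x) : ℂ) - r (c (σ • x))) * lam x = 0) : lam = 0 := by
  classical
  let A : G ⊕ X → X → ℤ := Sum.elim (fun σ x => (r (σ • x) : ℤ) - r (c (σ • x)))
    (fun z x => (if x = z then 1 else 0) + (if x = c z then 1 else 0))
  refine int_kernel (p := p) A ?_ lam ?_
  · intro u hu
    have hodd' : ∀ x, u (c x) = - u x := by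
      intro x
      have h1 := hu (Sum.inr x)
      simp only [A, Sum.elim_inr, Int.cast_add, Int.cast_ite, Int.cast_one, Int.cast_zero, add_mul,
        sum_add_distrib, ite_mul, one_mul, zero_mul, sum_ite_eq', mem_univ, if_true] at h1
      exact eq_neg_of_add_eq_zero_right h1
    refine annS S u hodd' fun σ => ?_
    have h1 := hu (Sum.inl σ)
    simp only [A, Sum.elim_inl, Int.cast_sub, Int.cast_natCast, sub_mul, sum_sub_distrib] at h1
    have h2 : ∑ x, (r (c (σ • x)) : ZMod p) * u x = - ∑ x, (r (σ • x) : ZMod p) * u x := by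
      rw [← sum_neg_distrib]
      refine Fintype.sum_equiv
        { toFun := c, invFun := c, left_inv := S.cc, right_inv := S.cc } _ _ fun x => ?_
      change _ = - ((r (σ • c x) : ZMod p) * u (c x))
      rw [hodd', ← S.cg]
      ring
    rw [h2, sub_neg_eq_add, ← two_mul] at h1
    exact (mul_eq_zero.1 h1).resolve_left (two_ne S)
  · rintro (σ | z)
    · rw [← h σ]
      refine sum_congr rfl fun x _ => ?_
      simp only [A, Sum.elim_inl, Int.cast_sub, Int.cast_natCast]
    · simp only [A, Sum.elim_inr, Int.cast_add, Int.cast_ite, Int.cast_one, Int.cast_zero, add_mul,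
        sum_add_distrib, ite_mul, one_mul, zero_mul, sum_ite_eq', mem_univ, if_true]
      rw [hodd]
      ring

/-- **Coprimality.** -/
theorem copF (x : X) : ∃ σ : G, Nat.Coprime (r (σ • x)) (r (c (σ • x))) := by
  classical
  obtain ⟨x1, hx1⟩ : ∃ x1 : X, ¬ p ∣ r x1 := by
    by_contra hcon
    push Not at hcon
    have h1 := S.gen (Pi.single (π x) 1 - Pi.single (c' (π x)) 1) (by
        intro z
        have e1 : (c' z = π x) ↔ (z = c' (π x)) :=
          ⟨fun h => by rw [← h, c'_c' S], fun h => by rw [h, c'_c' S]⟩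
        have e2 : (c' z = c' (π x)) ↔ (z = π x) :=
          ⟨fun h => by rw [← c'_c' S z, h, c'_c' S], fun h => by rw [h]⟩
        simp only [Pi.sub_apply, Pi.single_apply, e1, e2]
        ring) (by
        intro σ
        refine sum_eq_zero fun y _ => ?_
        have h2 : (t (σ • y) : ZMod p) = 0 := by
          rw [ZMod.natCast_eq_zero_iff, ← S.fib]
          exact Finset.dvd_sum fun x _ => hcon x
        rw [h2, zero_mul])
    have h2 := congrFun h1 (π x)
    simp only [Pi.sub_apply, Pi.single_apply, if_true, Pi.zero_apply] at h2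
    rw [if_neg (c'_ne S (π x)).symm, sub_zero] at h2
    exact one_ne_zero h2
  obtain ⟨σ, hσ⟩ := S.tr x x1
  refine ⟨σ, ?_⟩
  rw [hσ]
  have h4 := S.sum x1
  obtain ⟨a, ha⟩ := S.pow
  have h5 : Nat.Coprime (r x1) n' := by
    rw [ha]
    exact Nat.Coprime.pow_right a
      ((Nat.coprime_comm).1 ((Nat.Prime.coprime_iff_not_dvd hp.out).2 hx1))
  rw [← h4] at h5
  exact (Nat.coprime_self_add_right).1 h5

/-- **Separation.** -/
theorem sepF {x y : X} (h1 : y ≠ x) (h2 : y ≠ c x) (hn : n' ≠ 1)
    (h : ∀ σ : G, r (σ • x) = r (σ • y) ∨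
      (r (σ • x) * r (c (σ • x)) = 0 ∧ r (σ • y) * r (c (σ • y)) = 0)) : False := by
  classical
  obtain ⟨a, ha⟩ := S.pow
  have ha0 : a ≠ 0 := by
    rintro rfl
    exact hn (by rw [ha, pow_zero])
  have hn0 : (n' : ZMod p) = 0 := by
    rw [ha, Nat.cast_pow, ZMod.natCast_self, zero_pow ha0]
  have hrc : ∀ z, (r (c z) : ZMod p) = - r z := fun z => by
    have h5 := congrArg (fun m : ℕ => (m : ZMod p)) (S.sum z)
    simp only [Nat.cast_add] at h5
    rw [hn0] at h5
    linear_combination h5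
  have hdef : ∀ z, r z * r (c z) = 0 → (r z : ZMod p) = 0 := by
    intro z hz
    rcases mul_eq_zero.1 hz with h5 | h5
    · rw [h5, Nat.cast_zero]
    · have h6 := hrc z
      rw [h5, Nat.cast_zero] at h6
      linear_combination h6
  have hcong : ∀ σ : G, (r (σ • x) : ZMod p) = r (σ • y) := by
    intro σ
    rcases h σ with h5 | ⟨h5, h6⟩
    · rw [h5]
    · rw [hdef _ h5, hdef _ h6]
  have h3 : c y ≠ x := by
    intro h3
    apply h2
    rw [← h3, S.cc]
  have key := annS S (Pi.single x 1 - Pi.single (c x) 1 - Pi.single y 1 + Pi.single (c y) 1)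
    (by
      intro z
      have e1 : ∀ w, (c z = w) ↔ (z = c w) := fun w =>
        ⟨fun h => by rw [← h, S.cc], fun h => by rw [h, S.cc]⟩
      have e2 : ∀ w, (c z = c w) ↔ (z = w) := fun w =>
        ⟨fun h => by rw [← S.cc z, h, S.cc], fun h => by rw [h]⟩
      simp only [Pi.add_apply, Pi.sub_apply, Pi.single_apply, e2, e1]
      ring)
    (by
      intro σ
      simp only [Pi.add_apply, Pi.sub_apply, mul_add, mul_sub, sum_add_distrib, sum_sub_distrib,
        Pi.single_apply, mul_ite, mul_one, mul_zero, sum_ite_eq', mem_univ, if_true]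
      have e1 : (r (σ • c x) : ZMod p) = - r (σ • x) := by rw [← S.cg, hrc]
      have e2 : (r (σ • c y) : ZMod p) = - r (σ • y) := by rw [← S.cg, hrc]
      rw [e1, e2, hcong]
      ring)
  have h4 := congrFun key x
  simp only [Pi.add_apply, Pi.sub_apply, Pi.single_apply, if_true, Pi.zero_apply] at h4
  rw [if_neg (c_ne S x).symm, if_neg h1.symm, if_neg h3.symm] at h4
  simp at h4

end

end Pool.Agent.H943.KF
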