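import Mathlib
import Pool.Agent.H943.KS.Geo3

/-!
# The idempotents of a field of endomorphisms
-/

set_option autoImplicit false
set_option linter.unusedSectionVars false

namespace Pool.Agent.H943.KF

open Matrix Module Pool.Agent.H204R3.CM Pool.Agent.H194R3.CM Pool.Agent.W437.HC
  Pool.Agent.W437.HD Pool.Agent.W437.HQ Pool.Agent.W548.Odd Pool.Agent.TH125 Pool.Agent.Y4
  Pool.Agent.Y4.G Pool.Agent.Y4.K Pool.Agent.H943.KS

open Pool.Agent.Y4.H (exists_prims LZ Ct map_smul_aut' D_mem_LZ Dσ_mem_LZ)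

variable {g : ℕ} {Z : Matrix (Fin g) (Fin g) ℂ}

section

variable {F : Type} [Field F] [NumberField F] (j : F →+* MQ g)

/-- The dual basis of the standard basis. -/
noncomputable def db (F : Type) [Field F] [NumberField F] :
    Basis (Fin (finrank ℚ F)) ℚ F :=
  (Algebra.traceForm ℚ F).dualBasis (traceForm_nondegenerate ℚ F) (finBasis ℚ F)

theorem trace_mul_db (x : F) :
    ∑ i, Algebra.trace ℚ F (db F i * x) • finBasis ℚ F i = x := by
  conv_rhs => rw [← (finBasis ℚ F).sum_repr x]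
  refine Finset.sum_congr rfl fun i _ => ?_
  congr 1
  conv_lhs => rw [← (finBasis ℚ F).sum_repr x]
  rw [Finset.mul_sum, map_sum, Finset.sum_eq_single i]
  · rw [mul_smul_comm, map_smul, ← Algebra.traceForm_apply, db,
      LinearMap.BilinForm.apply_dualBasis_left, if_pos rfl, smul_eq_mul, mul_one]
  · intro k _ hk
    rw [mul_smul_comm, map_smul, ← Algebra.traceForm_apply, db,
      LinearMap.BilinForm.apply_dualBasis_left, if_neg hk, smul_zero]
  · intro h
    exact absurd (Finset.mem_univ i) h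

theorem trace_db_mul (x : F) :
    ∑ i, Algebra.trace ℚ F (x * finBasis ℚ F i) • db F i = x := by
  conv_rhs => rw [← (db F).sum_repr x]
  refine Finset.sum_congr rfl fun i _ => ?_
  congr 1
  rw [db, LinearMap.BilinForm.dualBasis_repr_apply, Algebra.traceForm_apply]

/-- The sum over the embeddings. -/
theorem sum_emb (x : F) : ∑ τ : F →+* ℂ, τ x = ((Algebra.trace ℚ F x : ℚ) : ℂ) := by
  have h1 := trace_eq_sum_embeddings (K := ℚ) (L := F) ℂ (x := x)
  have h2 : ((Algebra.trace ℚ F x : ℚ) : ℂ) = algebraMap ℚ ℂ (Algebra.trace ℚ F x) := rfl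
  rw [h2, h1]
  exact Fintype.sum_equiv (RingHom.equivRatAlgHom F ℂ) _ _ fun τ => rfl

/-- The idempotent of an embedding. -/
noncomputable def pt (τ : F →+* ℂ) : Matrix (Fin g ⊕ Fin g) (Fin g ⊕ Fin g) ℂ :=
  ∑ i, τ (db F i) • cq (j (finBasis ℚ F i))

theorem cq_sum {ι : Type} (s : Finset ι) (f : ι → MQ g) : cq (∑ i ∈ s, f i) = ∑ i ∈ s, cq (f i) := by
  classical
  induction s using Finset.induction_on with
  | empty => rw [Finset.sum_empty, Finset.sum_empty, cq_zero]
  | insert a s ha ih => rw [Finset.sum_insert ha, Finset.sum_insert ha, cq_add, ih]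

theorem j_smul (r : ℚ) (x : F) : j (r • x) = r • j x := map_rat_smul j r x

theorem sum_pt : ∑ τ, pt j τ = 1 := by
  unfold pt
  rw [Finset.sum_comm]
  have h1 : ∀ i, ∑ τ : F →+* ℂ, τ (db F i) • cq (j (finBasis ℚ F i)) =
      cq (j (Algebra.trace ℚ F (db F i * 1) • finBasis ℚ F i)) := by
    intro i
    rw [← Finset.sum_smul, sum_emb, j_smul, cq_smul, mul_one]
  rw [Finset.sum_congr rfl fun i _ => h1 i, ← cq_sum, ← map_sum, trace_mul_db, map_one, cq_one]

theorem j_pt (τ : F →+* ℂ) (a : F) : cq (j a) * pt j τ = τ a • pt j τ := by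
  unfold pt
  rw [Finset.mul_sum, Finset.smul_sum]
  have h1 : ∀ i, cq (j a) * (τ (db F i) • cq (j (finBasis ℚ F i))) =
      ∑ k, (τ (db F i) * ((Algebra.trace ℚ F (db F k * (a * finBasis ℚ F i)) : ℚ) : ℂ)) •
        cq (j (finBasis ℚ F k)) := by
    intro i
    rw [Matrix.mul_smul, ← cq_mul, ← map_mul]
    conv_lhs => rw [← trace_mul_db (a * finBasis ℚ F i)]
    rw [map_sum, cq_sum, Finset.smul_sum]
    refine Finset.sum_congr rfl fun k _ => ?_
    rw [j_smul, cq_smul, smul_smul]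
  rw [Finset.sum_congr rfl fun i _ => h1 i, Finset.sum_comm]
  refine Finset.sum_congr rfl fun k _ => ?_
  rw [← Finset.sum_smul, smul_smul]
  congr 1
  have h2 : τ (a * db F k) = ∑ i, τ (Algebra.trace ℚ F ((a * db F k) * finBasis ℚ F i) • db F i) := by
    rw [← map_sum, trace_db_mul]
  rw [← map_mul, h2]
  refine Finset.sum_congr rfl fun i _ => ?_
  rw [map_rat_smul]
  rw [Rat.smul_def, mul_comm]
  congr 3
  ring

theorem pt_j (τ : F →+* ℂ) (a : F) : pt j τ * cq (j a) = τ a • pt j τ := by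
  rw [← j_pt]
  unfold pt
  rw [Finset.mul_sum, Finset.sum_mul]
  refine Finset.sum_congr rfl fun i _ => ?_
  rw [Matrix.mul_smul, Matrix.smul_mul, ← cq_mul, ← cq_mul, ← map_mul, ← map_mul, mul_comm]

/-- Orthogonality. -/
theorem pt_orth {τ τ' : F →+* ℂ} (h : τ ≠ τ') : pt j τ * pt j τ' = 0 := by
  obtain ⟨a, ha⟩ : ∃ a, τ a ≠ τ' a := by
    by_contra hcon
    push Not at hcon
    exact h (RingHom.ext hcon)
  have h1 : τ a • (pt j τ * pt j τ') = τ' a • (pt j τ * pt j τ') := by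
    rw [← Matrix.smul_mul, ← pt_j, mul_assoc, j_pt, Matrix.mul_smul]
  have h2 : (τ a - τ' a) • (pt j τ * pt j τ') = 0 := by rw [sub_smul, h1, sub_self]
  exact (smul_eq_zero.1 h2).resolve_left (sub_ne_zero.2 ha)

theorem pt_idem (τ : F →+* ℂ) : pt j τ * pt j τ = pt j τ := by
  classical
  conv_rhs => rw [← mul_one (pt j τ), ← sum_pt j, Finset.mul_sum]
  rw [Finset.sum_eq_single τ]
  · intro τ' _ h
    exact pt_orth j h.symm
  · intro h
    exact absurd (Finset.mem_univ τ) h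

/-- The idempotent fixes the eigenvectors. -/
theorem pt_fix {τ : F →+* ℂ} {m : Type} [Fintype m] {x : Matrix (Fin g ⊕ Fin g) m ℂ}
    (h : ∀ a, cq (j a) * x = τ a • x) : pt j τ * x = x := by
  classical
  have h0 : ∀ τ' : F →+* ℂ, τ' ≠ τ → pt j τ' * x = 0 := by
    intro τ' hτ
    obtain ⟨a, ha⟩ : ∃ a, τ' a ≠ τ a := by
      by_contra hcon
      push Not at hcon
      exact hτ (RingHom.ext hcon)
    have h1 : τ' a • (pt j τ' * x) = τ a • (pt j τ' * x) := by
      rw [← Matrix.smul_mul, ← pt_j, Matrix.mul_assoc, h, Matrix.mul_smul]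
    have h2 : (τ' a - τ a) • (pt j τ' * x) = 0 := by rw [sub_smul, h1, sub_self]
    exact (smul_eq_zero.1 h2).resolve_left (sub_ne_zero.2 ha)
  conv_rhs => rw [← Matrix.one_mul x, ← sum_pt j, Matrix.sum_mul]
  rw [Finset.sum_eq_single τ]
  · intro τ' _ h1
    exact h0 τ' h1
  · intro h1
    exact absurd (Finset.mem_univ τ) h1

theorem pt_map (τ : F →+* ℂ) (σ : ℂ ≃+* ℂ) :
    (pt j τ).map (σ : ℂ →+* ℂ) = pt j ((σ : ℂ →+* ℂ).comp τ) := by
  unfold pt
  have h1 : ∀ (s : Finset (Fin (finrank ℚ F)))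
      (f : Fin (finrank ℚ F) → Matrix (Fin g ⊕ Fin g) (Fin g ⊕ Fin g) ℂ),
      (∑ i ∈ s, f i).map (σ : ℂ →+* ℂ) = ∑ i ∈ s, (f i).map (σ : ℂ →+* ℂ) := by
    intro s f
    exact map_sum ((σ : ℂ →+* ℂ).mapMatrix (m := Fin g ⊕ Fin g)) f s
  rw [h1]
  refine Finset.sum_congr rfl fun i _ => ?_
  rw [map_smul_aut', cq_map]
  rfl

end

end Pool.Agent.H943.KF
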