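import Mathlib
import Pool.Agent.H943.KF.Idem

/-!
# Ranks of idempotents of the commutant
-/

set_option autoImplicit false
set_option linter.unusedSectionVars false

namespace Pool.Agent.H943.KF

open Matrix Module Pool.Agent.H204R3.CM Pool.Agent.H194R3.CM Pool.Agent.W437.HC
  Pool.Agent.W437.HD Pool.Agent.W437.HQ Pool.Agent.W548.Odd Pool.Agent.TH125 Pool.Agent.Y4
  Pool.Agent.Y4.G Pool.Agent.Y4.K Pool.Agent.H943.KS

open Pool.Agent.Y4.H (exists_prims LZ Ct map_smul_aut' D_mem_LZ Dσ_mem_LZ)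

variable {g : ℕ} {Z : Matrix (Fin g) (Fin g) ℂ}

section

variable {F : Type} [Field F] [NumberField F] (j : F →+* MQ g)

/-- The eigenspace of an embedding in the tangent space. -/
def TF (Z : Matrix (Fin g) (Fin g) ℂ) (j : F →+* MQ g) (τ : F →+* ℂ) :
    Submodule ℂ (Fin g → ℂ) where
  carrier := {t | ∀ (a : F) (N : Matrix (Fin g) (Fin g) ℂ), IsEndo Z (j a) N →
    N.mulVec t = τ a • t}
  zero_mem' := fun a M _ => by rw [mulVec_zero, smul_zero]
  add_mem' := fun {x y} hx hy a M h => by rw [mulVec_add, hx a M h, hy a M h, smul_add]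
  smul_mem' := fun c x hx a M h => by rw [mulVec_smul, hx a M h, smul_comm]

variable {j} (M : Pol Z) (hE : ∀ a, ∃ N, IsEndo Z (j a) N)
include M hE

theorem Ct_pt (τ : F →+* ℂ) : Ct Z (pt j τ) := by
  intro X hX
  unfold pt
  rw [Finset.sum_mul, Finset.mul_sum]
  refine Finset.sum_congr rfl fun i _ => ?_
  obtain ⟨N, hN⟩ := hE (finBasis ℚ F i)
  rw [Matrix.smul_mul, Matrix.mul_smul, M.Ct_of_endo hN X hX]

theorem D_pt (τ : F →+* ℂ) : DZ Z * pt j τ = pt j τ * DZ Z := (Ct_pt M hE τ _ D_mem_LZ).symm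

/-- The dimension of the eigenspace. -/
theorem dim_TF (τ : F →+* ℂ) :
    ((finrank ℂ (TF Z j τ) : ℕ) : ℂ) = trace ((2 : ℂ)⁻¹ • ((1 + DZ Z) * pt j τ)) := by
  obtain ⟨PT, hPT⟩ : ∃ PT, PT = (2 : ℂ)⁻¹ • ((1 + DZ Z) * pt j τ) := ⟨_, rfl⟩
  have h1 := D_pt M hE τ
  have h3 := DZ_sq M.isUnit
  have hid : PT * PT = PT := by
    have h2 := pt_idem j τ
    have h4 : (1 + DZ Z) * (1 + DZ Z) = (2 : ℂ) • (1 + DZ Z) := by
      rw [mul_add, mul_one, add_mul, one_mul, h3, two_smul]
      abel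
    have h5 : pt j τ * (1 + DZ Z) = (1 + DZ Z) * pt j τ := by
      rw [mul_add, add_mul, mul_one, one_mul, h1]
    rw [hPT, Matrix.smul_mul, Matrix.mul_smul, mul_assoc, ← mul_assoc (pt j τ), h5,
      mul_assoc _ (pt j τ), h2, ← mul_assoc, h4, Matrix.smul_mul, smul_smul (2 : ℂ)⁻¹ 2,
      inv_mul_cancel₀ two_ne_zero, one_smul]
  rw [← hPT, trace_idemM hid]
  congr 1
  have hDP : DZ Z * PT = PT := by
    rw [hPT, Matrix.mul_smul, ← mul_assoc, mul_add, mul_one, h3, add_comm (DZ Z)]
  have hxP : ∀ a, cq (j a) * PT = τ a • PT := by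
    intro a
    obtain ⟨N, hN⟩ := hE a
    rw [hPT, Matrix.mul_smul, ← mul_assoc, mul_add, mul_one, endo_comm M.isUnit hN,
      ← one_add_mul, mul_assoc, j_pt, Matrix.mul_smul, smul_comm]
  have hmem : ∀ x : Fin g ⊕ Fin g → ℂ, x ∈ LinearMap.range (mulVecLin PT) ↔
      DZ Z *ᵥ x = x ∧ ∀ a, cq (j a) *ᵥ x = τ a • x := by
    intro x
    constructor
    · rintro ⟨y, rfl⟩
      refine ⟨?_, fun a => ?_⟩
      · rw [mulVecLin_apply, mulVec_mulVec, hDP]
      · rw [mulVecLin_apply, mulVec_mulVec, hxP, smul_mulVec]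
    · rintro ⟨h4, h5⟩
      have h6 : pt j τ *ᵥ x = x := by
        have h7 := pt_fix j (τ := τ) (m := Unit) (x := Matrix.of fun i (_ : Unit) => x i) (by
          intro a
          ext i k
          exact congrFun (h5 a) i)
        funext i
        exact congrFun (congrFun h7 i) ()
      refine ⟨x, ?_⟩
      rw [mulVecLin_apply, hPT, smul_mulVec, ← mulVec_mulVec, h6, add_mulVec,
        one_mulVec, h4, ← two_smul ℂ, smul_smul, inv_mul_cancel₀ two_ne_zero, one_smul]
  set f := (mulVecLin (PZ Z)).domRestrict (LinearMap.range (mulVecLin PT)) with hf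
  have hinj : Function.Injective f := by
    rw [← LinearMap.ker_eq_bot, LinearMap.ker_eq_bot']
    rintro ⟨x, hx⟩ h
    apply Subtype.ext
    exact eq_zero_of_PZ M.isUnit ((hmem x).1 hx).1 h
  have hrange : LinearMap.range f = TF Z j τ := by
    ext t
    constructor
    · rintro ⟨⟨x, hx⟩, rfl⟩ a N hN
      change N *ᵥ (PZ Z *ᵥ x) = τ a • (PZ Z *ᵥ x)
      have h1 := endo_PZ hN
      rw [mulVec_mulVec, ← h1, ← mulVec_mulVec, ((hmem x).1 hx).2, mulVec_smul]
    · intro ht
      obtain ⟨x, hx⟩ : ∃ x, x = (2 : ℂ)⁻¹ • ((1 + DZ Z) *ᵥ (r10 g *ᵥ t)) := ⟨_, rfl⟩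
      have h1 : DZ Z *ᵥ x = x := by
        rw [hx, mulVec_smul, mulVec_mulVec, mul_add, mul_one, DZ_sq M.isUnit, add_comm (DZ Z)]
      have h2 : PZ Z *ᵥ x = t := by
        rw [hx, mulVec_smul, mulVec_mulVec, Matrix.mul_add, Matrix.mul_one, PZ_DZ M.isUnit,
          mulVec_mulVec, Matrix.add_mul, PZ_r10, add_mulVec, one_mulVec, ← two_smul ℂ, smul_smul,
          inv_mul_cancel₀ two_ne_zero, one_smul]
      have h3 : ∀ a, cq (j a) *ᵥ x = τ a • x := by
        intro a
        obtain ⟨N, hN⟩ := hE a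
        rw [← sub_eq_zero]
        have hcomm := endo_comm M.isUnit hN
        refine eq_zero_of_PZ M.isUnit ?_ ?_
        · rw [mulVec_sub, mulVec_mulVec, ← hcomm, ← mulVec_mulVec, mulVec_smul, h1]
        · have h4 := endo_PZ hN
          rw [mulVec_sub, mulVec_mulVec, h4, ← mulVec_mulVec, h2, mulVec_smul, h2, ht a _ hN,
            sub_self]
      exact ⟨⟨x, (hmem x).2 ⟨h1, h3⟩⟩, h2⟩
  rw [← hrange, LinearMap.finrank_range_of_inj hinj]

end

/-- The elements of the left ideal of `φ` which are fixed by an idempotent. -/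
def Vp (Z : Matrix (Fin g) (Fin g) ℂ) (φ : Pr Z)
    (a : Matrix (Fin g ⊕ Fin g) (Fin g ⊕ Fin g) ℂ) :
    Submodule ℂ (Matrix (Fin g ⊕ Fin g) (Fin g ⊕ Fin g) ℂ) where
  carrier := {x | Ct Z x ∧ x * φ.e = x ∧ a * x = x}
  zero_mem' := ⟨fun X _ => by rw [zero_mul, mul_zero], zero_mul _, mul_zero _⟩
  add_mem' := fun {x y} hx hy => ⟨fun X hX => by rw [add_mul, mul_add, hx.1 X hX, hy.1 X hX], by
    rw [add_mul, hx.2.1, hy.2.1], by rw [mul_add, hx.2.2, hy.2.2]⟩
  smul_mem' := fun r x hx => ⟨fun X hX => by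
    rw [Matrix.smul_mul, Matrix.mul_smul, hx.1 X hX], by rw [Matrix.smul_mul, hx.2.1], by
    rw [Matrix.mul_smul, hx.2.2]⟩

section

variable (M : Pol Z) {I : Type} [Fintype I] {ε : I → Pr Z} (Fm : Pol.Fam ε)
include M Fm

/-- **The rank of an idempotent of the commutant at a class.** -/
theorem rank_idem {a : Matrix (Fin g ⊕ Fin g) (Fin g ⊕ Fin g) ℂ} (ha : Ct Z a) (ha2 : a * a = a)
    (φ : Pr Z) :
    trace (M.ce ε φ * a) = (((mu φ + mu (M.bar φ)) * finrank ℂ (Vp Z φ a) : ℕ) : ℂ) ∧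
    trace ((2 : ℂ)⁻¹ • ((1 + DZ Z) * (M.ce ε φ * a))) =
      ((mu φ * finrank ℂ (Vp Z φ a) : ℕ) : ℂ) := by
  classical
  let S : Type := {i : I // Eqv (ε i) φ}
  choose β α hβα using fun i : S => i.2
  have hα : ∀ i : S, Iso φ (ε i.1) (α i) (β i) := fun i => (hβα i).symm
  have horth : ∀ i k : S, β i * α k = if i = k then φ.e else 0 := by
    intro i k
    by_cases h : i = k
    · rw [if_pos h, ← h, (hα i).ba]
    · rw [if_neg h, ← (hα i).rb, ← (hα k).la, mul_assoc, ← mul_assoc (ε i.1).e,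
        Fm.orth _ _ (fun h' => h (Subtype.ext h')), zero_mul, mul_zero]
  choose A hA' using fun (k i : S) => φ.prim (β k * a * α i)
    (InCm.mul (InCm.mul (hα k).cb ha) (hα i).ca)
  have hA : ∀ k i, β k * a * α i = A k i • φ.e := by
    intro k i
    rw [← hA' k i, ← mul_assoc, ← mul_assoc, (hα k).lb, mul_assoc _ (α i), (hα i).ra]
  -- expansion of the elements of the left ideal
  have hexp : ∀ x, Ct Z x → x * φ.e = x → x = ∑ k : S, α k * (β k * x) := by
    intro x hx hxφ
    conv_lhs => rw [← one_mul x, ← Fm.sum, Finset.sum_mul,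
      ← Finset.sum_filter_add_sum_filter_not Finset.univ (fun k => Eqv (ε k) φ)]
    have h3 : ∑ k ∈ Finset.univ.filter (fun k => ¬ Eqv (ε k) φ), (ε k).e * x = 0 := by
      refine Finset.sum_eq_zero fun k hk => ?_
      rw [← hxφ, ← mul_assoc]
      exact M.eq_zero_of_not (fun h => (Finset.mem_filter.1 hk).2 h.symm) hx
    rw [h3, add_zero, Finset.sum_subtype (p := fun k => Eqv (ε k) φ) _ (fun k => by simp)]
    refine Finset.sum_congr rfl fun k _ => ?_
    rw [← mul_assoc, (hα k).ab]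
  let f : (S → ℂ) →ₗ[ℂ] Matrix (Fin g ⊕ Fin g) (Fin g ⊕ Fin g) ℂ :=
    { toFun := fun x => ∑ p : S, x p • α p
      map_add' := fun x y => by
        simp only [Pi.add_apply, add_smul, Finset.sum_add_distrib]
      map_smul' := fun c x => by
        simp only [Pi.smul_apply, smul_eq_mul, mul_smul, Finset.smul_sum, RingHom.id_apply] }
  have hf : ∀ x, f x = ∑ p : S, x p • α p := fun _ => rfl
  have hβf : ∀ (k : S) x, β k * f x = x k • φ.e := by
    intro k x
    rw [hf, Finset.mul_sum, Finset.sum_eq_single k]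
    · rw [Matrix.mul_smul, horth, if_pos rfl]
    · intro p _ hp
      rw [Matrix.mul_smul, horth, if_neg hp.symm, smul_zero]
    · intro h
      exact absurd (Finset.mem_univ _) h
  have hinj : Function.Injective f := by
    rw [injective_iff_map_eq_zero]
    intro x hx
    funext k
    have h1 := hβf k x
    rw [hx, mul_zero] at h1
    exact (smul_eq_zero.1 h1.symm).resolve_right φ.ne
  have haα : ∀ i, a * α i = ∑ k : S, A k i • α k := by
    intro i
    conv_lhs => rw [hexp (a * α i) (InCm.mul ha (hα i).ca) (by rw [mul_assoc, (hα i).ra])]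
    refine Finset.sum_congr rfl fun k _ => ?_
    rw [← mul_assoc (β k), hA, Matrix.mul_smul, (hα k).ra]
  have haf : ∀ x, a * f x = f (Matrix.mulVec (Matrix.of A) x) := by
    intro x
    rw [hf, hf, Finset.mul_sum]
    have h1 : ∀ i, a * (x i • α i) = ∑ k : S, (x i * A k i) • α k := by
      intro i
      rw [Matrix.mul_smul, haα, Finset.smul_sum]
      refine Finset.sum_congr rfl fun k _ => ?_
      rw [smul_smul]
    rw [Finset.sum_congr rfl fun i _ => h1 i, Finset.sum_comm]
    refine Finset.sum_congr rfl fun k _ => ?_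
    rw [← Finset.sum_smul]
    congr 1
    change _ = ∑ i, A k i * x i
    exact Finset.sum_congr rfl fun i _ => mul_comm _ _
  have hAA : Matrix.of A * Matrix.of A = Matrix.of A := by
    apply Matrix.ext_of_mulVec_single
    intro i
    apply hinj
    rw [← Matrix.mulVec_mulVec, ← haf, ← haf, ← mul_assoc, ha2]
  have hV : Vp Z φ a = Submodule.map f (LinearMap.range (Matrix.mulVecLin (Matrix.of A))) := by
    ext x
    constructor
    · rintro ⟨h1, h2, h3⟩
      choose c hc using fun k : S => φ.prim (β k * x) (InCm.mul (hα k).cb h1)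
      have hc' : ∀ k, β k * x = c k • φ.e := by
        intro k
        rw [← hc k, ← mul_assoc, (hα k).lb, mul_assoc, h2]
      have h4 : f c = x := by
        conv_rhs => rw [hexp x h1 h2]
        rw [hf]
        refine Finset.sum_congr rfl fun k _ => ?_
        rw [hc', Matrix.mul_smul, (hα k).ra]
      refine ⟨c, ⟨c, ?_⟩, h4⟩
      apply hinj
      rw [Matrix.mulVecLin_apply, ← haf, h4, h3]
    · rintro ⟨_, ⟨c, rfl⟩, rfl⟩
      refine ⟨?_, ?_, ?_⟩
      · intro X hX
        rw [hf, Finset.sum_mul, Finset.mul_sum]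
        refine Finset.sum_congr rfl fun p _ => ?_
        rw [Matrix.smul_mul, Matrix.mul_smul, (hα p).ca X hX]
      · rw [hf, Finset.sum_mul]
        refine Finset.sum_congr rfl fun p _ => ?_
        rw [Matrix.smul_mul, (hα p).ra]
      · rw [Matrix.mulVecLin_apply, haf, Matrix.mulVec_mulVec, hAA]
  have hrk : ((finrank ℂ (Vp Z φ a) : ℕ) : ℂ) = ∑ i : S, A i i := by
    have h1 := trace_idemM hAA
    rw [hV, ← (Submodule.equivMapOfInjective f hinj _).finrank_eq, ← h1]
    rfl
  have hce : M.ce ε φ = ∑ i : S, (ε i.1).e := by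
    unfold Pol.ce
    rw [← Finset.sum_subtype (p := fun i => Eqv (ε i) φ)
      (Finset.univ.filter (fun i => Eqv (ε i) φ)) (fun i => by simp) (fun i => (ε i).e)]
  have htr : ∀ X, X ∈ LZ Z ∨ X = 1 → ∀ i : S, trace (X * ((ε i.1).e * a)) =
      A i i * trace (X * φ.e) := by
    intro X hX i
    have h1 : β i * X = X * β i := by
      rcases hX with hX | rfl
      · exact (hα i).cb X hX
      · rw [mul_one, one_mul]
    calc trace (X * ((ε i.1).e * a)) = trace (X * α i * (β i * a)) := by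
          rw [← (hα i).ab]
          congr 1
          noncomm_ring
    _ = trace (β i * a * (X * α i)) := trace_mul_comm _ _
    _ = trace (X * (β i * a * α i)) := by
      have h2 : a * X = X * a := by
        rcases hX with hX | rfl
        · exact ha X hX
        · rw [mul_one, one_mul]
      congr 1
      calc β i * a * (X * α i) = β i * (a * X) * α i := by noncomm_ring
      _ = (β i * X) * a * α i := by rw [h2]; noncomm_ring
      _ = X * (β i * a * α i) := by rw [h1]; noncomm_ring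
    _ = A i i * trace (X * φ.e) := by
      rw [hA, Matrix.mul_smul, trace_smul, smul_eq_mul]
  refine ⟨?_, ?_⟩
  · rw [hce, Finset.sum_mul, trace_sum]
    have h1 : ∀ i : S, trace ((ε i.1).e * a) = A i i * ((mu φ + mu (M.bar φ) : ℕ) : ℂ) := by
      intro i
      have h2 := htr 1 (Or.inr rfl) i
      rw [one_mul, one_mul, M.trace_e] at h2
      exact h2
    rw [Finset.sum_congr rfl fun i _ => h1 i, ← Finset.sum_mul, ← hrk, Nat.cast_mul, mul_comm]
  · rw [hce, Finset.sum_mul, Finset.mul_sum, trace_smul, trace_sum]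
    have h1 : ∀ i : S, trace ((1 + DZ Z) * ((ε i.1).e * a)) = A i i * (2 * (mu φ : ℂ)) := by
      intro i
      have h2 := htr 1 (Or.inr rfl) i
      have h3 := htr (DZ Z) (Or.inl D_mem_LZ) i
      have h4 : trace ((1 + DZ Z) * φ.e) = 2 * (mu φ : ℂ) := by
        rw [← M.trace_pr, Pool.Agent.Y4.K.pr, trace_smul, smul_eq_mul, ← mul_assoc,
          mul_inv_cancel₀ two_ne_zero, one_mul]
      rw [add_mul, trace_add, h2, h3, ← mul_add, ← trace_add, ← add_mul, h4]
    rw [Finset.sum_congr rfl fun i _ => h1 i, ← Finset.sum_mul, ← hrk, smul_eq_mul]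
    push_cast
    ring

end

end Pool.Agent.H943.KF
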