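import Mathlib
import Pool.Agent.H943.KF.Link1
import Pool.Agent.H943.KF.Comb2
import Pool.Graph.R_seed8.Y4.Aut

/-!
# Classes and embeddings
-/

set_option autoImplicit false
set_option linter.unusedSectionVars false

namespace Pool.Agent.H943.KF

open Matrix Module Pool.Agent.H204R3.CM Pool.Agent.H194R3.CM Pool.Agent.W437.HC
  Pool.Agent.W437.HD Pool.Agent.W437.HQ Pool.Agent.W548.Odd Pool.Agent.TH125 Pool.Agent.Y4
  Pool.Agent.Y4.G Pool.Agent.Y4.K Pool.Agent.H943.KS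

open Pool.Agent.Y4.H (exists_prims LZ Ct map_smul_aut' D_mem_LZ Dσ_mem_LZ)

variable {g : ℕ} {Z : Matrix (Fin g) (Fin g) ℂ}

/-- The action of the automorphisms of `ℂ` on the embeddings. -/
@[reducible] def embAct (F : Type) [Field F] : MulAction (RingAut ℂ) (F →+* ℂ) where
  smul σ τ := (σ : ℂ →+* ℂ).comp τ
  one_smul τ := by
    ext x
    rfl
  mul_smul σ ρ τ := by
    ext x
    rfl

section

variable {F : Type} [Field F] [NumberField F] {j : F →+* MQ g} (M : Pol Z)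
  {D : Subalgebra ℚ (MQ g)} (hD : Dv Z D) (hjD : ∀ a, j a ∈ D)
  (hjc : ∀ a, ∀ x ∈ D, j a * x = x * j a)
  {I : Type} [Fintype I] {ε : I → Pr Z} (Fm : Pol.Fam ε)

include M hD hjD in
theorem endo_j (a : F) : ∃ N, IsEndo Z (j a) N := hD.endo (j a) (hjD a)

include hjc in
theorem pt_comm (τ : F →+* ℂ) {x : MQ g} (hx : x ∈ D) : cq x * pt j τ = pt j τ * cq x := by
  unfold pt
  rw [Finset.sum_mul, Finset.mul_sum]
  refine Finset.sum_congr rfl fun i _ => ?_
  rw [Matrix.smul_mul, Matrix.mul_smul, ← cq_mul, ← cq_mul, hjc _ x hx]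

include M Fm in
theorem ce_ce {φ ψ : Pr Z} : M.ce ε φ * M.ce ε ψ =
    open Classical in if Eqv φ ψ then M.ce ε φ else 0 := by
  classical
  have h1 : ∀ i, M.ce ε φ * ((M.ce ε ψ) * (ε i).e) = if Eqv φ ψ then M.ce ε φ * (ε i).e else 0 := by
    intro i
    rw [M.ce_mul Fm (φ := ψ) (ψ := ε i)]
    by_cases h2 : Eqv (ε i) ψ
    · rw [if_pos h2, M.ce_mul Fm]
      by_cases h3 : Eqv (ε i) φ
      · rw [if_pos h3, if_pos (h3.symm.trans h2)]
      · rw [if_neg h3, ite_self]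
    · rw [if_neg h2, mul_zero]
      by_cases h3 : Eqv φ ψ
      · rw [if_pos h3, M.ce_mul Fm, if_neg (fun h4 => h2 (h4.trans h3))]
      · rw [if_neg h3]
  calc M.ce ε φ * M.ce ε ψ = ∑ i, M.ce ε φ * ((M.ce ε ψ) * (ε i).e) := by
        rw [← Finset.mul_sum, ← Finset.mul_sum, Fm.sum, mul_one]
  _ = if Eqv φ ψ then M.ce ε φ else 0 := by
    rw [Finset.sum_congr rfl fun i _ => h1 i]
    by_cases h3 : Eqv φ ψ
    · simp only [if_pos h3]
      rw [← Finset.mul_sum, Fm.sum, mul_one]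
    · simp only [if_neg h3, Finset.sum_const_zero]

include M hD hjD Fm in
theorem ce_pt_comm (φ : Pr Z) (τ : F →+* ℂ) : pt j τ * M.ce ε φ = M.ce ε φ * pt j τ :=
  ((M.ce_central Fm φ).2 _ (Ct_pt M (endo_j M hD hjD) τ)).symm

include M hD hjD Fm in
theorem lk_idem (φ : Pr Z) (τ : F →+* ℂ) :
    (M.ce ε φ * pt j τ) * (M.ce ε φ * pt j τ) = M.ce ε φ * pt j τ := by
  have h1 := ce_pt_comm M hD hjD Fm φ τ
  calc (M.ce ε φ * pt j τ) * (M.ce ε φ * pt j τ) =
      M.ce ε φ * (pt j τ * M.ce ε φ) * pt j τ := by noncomm_ring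
  _ = (M.ce ε φ * M.ce ε φ) * (pt j τ * pt j τ) := by rw [h1]; noncomm_ring
  _ = _ := by rw [M.ce_idem Fm, pt_idem]

include M Fm in
theorem lk_map (φ : Pr Z) (τ : F →+* ℂ) (σ : ℂ ≃+* ℂ) :
    (M.ce ε φ * pt j τ).map (σ : ℂ →+* ℂ) =
      M.ce ε (M.act σ φ) * pt j ((σ : ℂ →+* ℂ).comp τ) := by
  rw [Matrix.map_mul, ce_act M Fm, pt_map]

theorem map_zero' (σ : ℂ ≃+* ℂ) :
    (0 : Matrix (Fin g ⊕ Fin g) (Fin g ⊕ Fin g) ℂ).map (σ : ℂ →+* ℂ) = 0 := by
  ext i k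
  simp

/-- The multiplicity of an embedding at a class. -/
noncomputable def rk (Z : Matrix (Fin g) (Fin g) ℂ) (j : F →+* MQ g) (φ : Pr Z) (τ : F →+* ℂ) : ℕ :=
  finrank ℂ (Vp Z φ (pt j τ))

include M hD hjD Fm in
theorem trace_lk (φ : Pr Z) (τ : F →+* ℂ) :
    trace (M.ce ε φ * pt j τ) = (((mu φ + mu (M.bar φ)) * rk Z j φ τ : ℕ) : ℂ) :=
  (rank_idem M Fm (Ct_pt M (endo_j M hD hjD) τ) (pt_idem j τ) φ).1

include M hD hjD Fm in
theorem trace_lk' (φ : Pr Z) (τ : F →+* ℂ) :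
    trace ((2 : ℂ)⁻¹ • ((1 + DZ Z) * (M.ce ε φ * pt j τ))) =
      ((mu φ * rk Z j φ τ : ℕ) : ℂ) :=
  (rank_idem M Fm (Ct_pt M (endo_j M hD hjD) τ) (pt_idem j τ) φ).2

include M hD hjD Fm in
theorem rk_eqv {φ ψ : Pr Z} (h : Eqv φ ψ) (τ : F →+* ℂ) : rk Z j φ τ = rk Z j ψ τ := by
  have h1 := trace_lk M hD hjD Fm φ τ
  have h2 := trace_lk M hD hjD Fm ψ τ
  rw [ce_eqv M (ε := ε) h, h2, M.mu_eqv h, M.mu_eqv (M.eqv_bar h)] at h1
  have h3 : (mu ψ + mu (M.bar ψ)) * rk Z j ψ τ = (mu ψ + mu (M.bar ψ)) * rk Z j φ τ := by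
    exact_mod_cast h1
  exact (Nat.eq_of_mul_eq_mul_left (M.mu_pos ψ) h3).symm

include M hD hjD Fm in
theorem rk_act (φ : Pr Z) (τ : F →+* ℂ) (σ : ℂ ≃+* ℂ) :
    rk Z j (M.act σ φ) ((σ : ℂ →+* ℂ).comp τ) = rk Z j φ τ := by
  have h1 := trace_lk M hD hjD Fm (M.act σ φ) ((σ : ℂ →+* ℂ).comp τ)
  rw [← lk_map M Fm] at h1
  have h2 : trace ((M.ce ε φ * pt j τ).map (σ : ℂ →+* ℂ)) = σ (trace (M.ce ε φ * pt j τ)) :=
    (AddMonoidHom.map_trace (σ : ℂ →+* ℂ).toAddMonoidHom _).symm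
  rw [h2, trace_lk M hD hjD Fm φ τ, map_natCast, M.mu_act] at h1
  have h3 : (mu φ + mu (M.bar φ)) * rk Z j φ τ =
      (mu φ + mu (M.bar φ)) * rk Z j (M.act σ φ) ((σ : ℂ →+* ℂ).comp τ) := by
    exact_mod_cast h1
  exact (Nat.eq_of_mul_eq_mul_left (M.mu_pos φ) h3).symm

include M hD hjD Fm in
theorem lk_iff (φ : Pr Z) (τ : F →+* ℂ) : M.ce ε φ * pt j τ ≠ 0 ↔ rk Z j φ τ ≠ 0 := by
  have h1 := trace_lk M hD hjD Fm φ τ
  constructor
  · intro h h0
    rw [h0, mul_zero, Nat.cast_zero, trace_idemM (lk_idem M hD hjD Fm φ τ)] at h1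
    have h2 : finrank ℂ (LinearMap.range (mulVecLin (M.ce ε φ * pt j τ))) = 0 := by
      exact_mod_cast h1
    apply h
    rw [Submodule.finrank_eq_zero, LinearMap.range_eq_bot] at h2
    apply Matrix.toLin'.injective
    rw [map_zero]
    exact h2
  · intro h h0
    rw [h0, trace_zero] at h1
    have h2 : (mu φ + mu (M.bar φ)) * rk Z j φ τ = 0 := by exact_mod_cast h1.symm
    rcases Nat.mul_eq_zero.1 h2 with h3 | h3
    · exact (M.mu_pos φ).ne' h3
    · exact h h3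

include M hD hjD hjc Fm in
/-- **The linked pairs form one orbit.** -/
theorem pair_tr {φ ψ : Pr Z} {τ τ' : F →+* ℂ} (h1 : rk Z j φ τ ≠ 0) (h2 : rk Z j ψ τ' ≠ 0) :
    ∃ σ : ℂ ≃+* ℂ, Eqv (M.act σ φ) ψ ∧ (σ : ℂ →+* ℂ).comp τ = τ' := by
  classical
  by_contra hcon
  push Not at hcon
  rw [← lk_iff M hD hjD Fm] at h1 h2
  let C : Submodule ℂ (Matrix (Fin g ⊕ Fin g) (Fin g ⊕ Fin g) ℂ) :=
    { carrier := {X | Ct Z X ∧ (∀ x ∈ D, X * cq x = cq x * X) ∧
        ∀ σ : ℂ ≃+* ℂ, X * (M.ce ε (M.act σ φ) * pt j ((σ : ℂ →+* ℂ).comp τ)) = 0}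
      zero_mem' := ⟨fun X _ => by rw [zero_mul, mul_zero], fun x _ => by
        rw [zero_mul, mul_zero], fun σ => zero_mul _⟩
      add_mem' := fun {a b} ha hb => ⟨fun X hX => by
        rw [add_mul, mul_add, ha.1 X hX, hb.1 X hX],
        fun X hX => by rw [add_mul, mul_add, ha.2.1 X hX, hb.2.1 X hX], fun σ => by
          rw [add_mul, ha.2.2, hb.2.2, add_zero]⟩
      smul_mem' := fun r a ha => ⟨fun X hX => by
        rw [Matrix.smul_mul, Matrix.mul_smul, ha.1 X hX], fun X hX => by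
        rw [Matrix.smul_mul, Matrix.mul_smul, ha.2.1 X hX], fun σ => by
          rw [Matrix.smul_mul, ha.2.2, smul_zero]⟩ }
  have key : ∀ Y ∈ C, Y = 0 := by
    refine rational_induction C ?_ ?_ rfl ?_ ?_
    · rintro ρ X ⟨h3, h4, h5⟩
      refine ⟨InCm.aut h3 ρ, fun x hx => ?_, fun σ => ?_⟩
      · have h6 := congrArg (fun Y : Matrix _ _ ℂ => Y.map (ρ : ℂ →+* ℂ)) (h4 x hx)
        simp only [Matrix.map_mul] at h6
        rw [cq_map] at h6
        exact h6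
      · have h6 := congrArg (fun Y : Matrix _ _ ℂ => Y.map (ρ : ℂ →+* ℂ)) (h5 (σ.trans ρ.symm))
        have h7 : ∀ A B : Matrix (Fin g ⊕ Fin g) (Fin g ⊕ Fin g) ℂ,
            (A * B).map (ρ : ℂ →+* ℂ) = A.map (ρ : ℂ →+* ℂ) * B.map (ρ : ℂ →+* ℂ) :=
          fun A B => Matrix.map_mul
        rw [h7, lk_map M Fm, map_zero'] at h6
        have h8 : M.act ρ (M.act (σ.trans ρ.symm) φ) = M.act σ φ := by
          apply Pr.ext
          rw [M.act_e, M.act_e, M.act_e]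
          ext i k
          simp
        have h9 : (ρ : ℂ →+* ℂ).comp (((σ.trans ρ.symm : ℂ ≃+* ℂ) : ℂ →+* ℂ).comp τ) =
            (σ : ℂ →+* ℂ).comp τ := by
          ext x
          simp
        rw [h8, h9] at h6
        exact h6
    · rintro u ⟨h3, h4, h5⟩
      have hu0 : u = 0 := by
        by_contra hu0
        have hux : ∀ x ∈ D, u * x = x * u := by
          intro x hx
          apply cq_inj
          rw [cq_mul, cq_mul]
          exact h4 x hx
        obtain ⟨v, hv⟩ := hD.com u (M.endo_of_Ct h3) hux hu0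
        have h6 : v * u = 1 := mul_eq_one_comm.1 hv
        have h7 := h5 (RingEquiv.refl ℂ)
        have h8 : M.act (RingEquiv.refl ℂ) φ = φ := by
          apply Pr.ext
          rw [M.act_e]
          ext i k
          simp
        have h9 : (((RingEquiv.refl ℂ : ℂ ≃+* ℂ) : ℂ →+* ℂ)).comp τ = τ := by
          ext x
          simp
        rw [h8, h9] at h7
        have h10 : cq u * (M.ce ε φ * pt j τ) = 0 := h7
        apply h1
        rw [← one_mul (M.ce ε φ * pt j τ), ← cq_one, ← h6, cq_mul, mul_assoc (cq v), h10, mul_zero]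
      rw [hu0]
      exact cq_zero
    · intro X Y hX hY
      rw [hX, hY, add_zero]
    · intro c X hX
      rw [hX, smul_zero]
  apply h2
  apply key
  refine ⟨?_, ?_, ?_⟩
  · exact InCm.mul (M.ce_central Fm ψ).1 (Ct_pt M (endo_j M hD hjD) τ')
  · intro x hx
    obtain ⟨N, hN⟩ := hD.endo x hx
    rw [mul_assoc, ← pt_comm hjc τ' hx, ← mul_assoc, (M.ce_central Fm ψ).2 _ (M.Ct_of_endo hN),
      mul_assoc]
  · intro σ
    have h3 := ce_pt_comm M hD hjD Fm (M.act σ φ) τ'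
    calc M.ce ε ψ * pt j τ' * (M.ce ε (M.act σ φ) * pt j ((σ : ℂ →+* ℂ).comp τ)) =
        M.ce ε ψ * (pt j τ' * M.ce ε (M.act σ φ)) * pt j ((σ : ℂ →+* ℂ).comp τ) := by
          noncomm_ring
    _ = (M.ce ε ψ * M.ce ε (M.act σ φ)) * (pt j τ' * pt j ((σ : ℂ →+* ℂ).comp τ)) := by
      rw [h3]
      noncomm_ring
    _ = 0 := by
      by_cases h4 : Eqv (M.act σ φ) ψ
      · rw [pt_orth j (hcon σ h4).symm, mul_zero]
      · rw [ce_ce M Fm, if_neg (fun h5 => h4 h5.symm), zero_mul]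

include M hD hjD hjc Fm in
/-- The degree of `D` is at most the multiplicity of a linked pair. -/
theorem degree_le_rk [Nontrivial D] {n : ℕ}
    (hn : finrank ℚ D = n ^ 2 * finrank ℚ (Subalgebra.center ℚ D)) {φ : Pr Z} {τ : F →+* ℂ}
    (h : rk Z j φ τ ≠ 0) : n ≤ rk Z j φ τ := by
  have hCt : ∀ x : D, Ct Z (cq x.1) := by
    intro x
    obtain ⟨N, hN⟩ := hD.endo x.1 x.2
    exact M.Ct_of_endo hN
  have : Nontrivial (Vp Z φ (pt j τ)) := by
    rw [← finrank_pos_iff (R := ℂ)]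
    exact Nat.pos_of_ne_zero h
  let ρ : D →+* Module.End ℂ (Vp Z φ (pt j τ)) :=
    { toFun := fun x =>
        { toFun := fun y => ⟨cq x.1 * y.1, InCm.mul (hCt x) y.2.1, by rw [mul_assoc, y.2.2.1], by
            rw [← mul_assoc, ← pt_comm hjc τ x.2, mul_assoc, y.2.2.2]⟩
          map_add' := fun y z => Subtype.ext (mul_add _ _ _)
          map_smul' := fun r y => Subtype.ext (Matrix.mul_smul _ _ _) }
      map_one' := by
        ext1 y
        apply Subtype.ext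
        change cq (1 : MQ g) * y.1 = y.1
        rw [cq_one, one_mul]
      map_zero' := by
        ext1 y
        apply Subtype.ext
        change cq (0 : MQ g) * y.1 = 0
        rw [cq_zero, zero_mul]
      map_mul' := fun a b => by
        ext1 y
        apply Subtype.ext
        change cq (a.1 * b.1) * y.1 = cq a.1 * (cq b.1 * y.1)
        rw [cq_mul, mul_assoc]
      map_add' := fun a b => by
        ext1 y
        apply Subtype.ext
        change cq (a.1 + b.1) * y.1 = cq a.1 * y.1 + cq b.1 * y.1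
        rw [cq_add, add_mul] }
  refine degree_le' (D := D) ?_ ρ hn
  intro x hx
  obtain ⟨y, hy⟩ := hD.div x.1 x.2 (fun h => hx (Subtype.ext h))
  have hy' : y * x.1 = 1 := mul_eq_one_comm.1 hy
  have hinj : Function.Injective (LinearMap.mulLeft ℚ x) := by
    rw [injective_iff_map_eq_zero]
    intro z hz
    have h1 : x.1 * z.1 = 0 := congrArg Subtype.val hz
    apply Subtype.ext
    calc z.1 = y * x.1 * z.1 := by rw [hy', one_mul]
    _ = 0 := by rw [mul_assoc, h1, mul_zero]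
  obtain ⟨z, hz⟩ := LinearMap.surjective_of_injective hinj 1
  exact ⟨z, hz⟩

end

end Pool.Agent.H943.KF
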