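import Mathlib
import Pool.Agent.H943.KF.Link2

/-!
# The conditions of the criterion
-/

set_option autoImplicit false
set_option linter.unusedSectionVars false

namespace Pool.Agent.H943.KF

open Matrix Module Pool.Agent.H204R3.CM Pool.Agent.H194R3.CM Pool.Agent.W437.HC
  Pool.Agent.W437.HD Pool.Agent.W437.HQ Pool.Agent.W548.Odd Pool.Agent.TH125 Pool.Agent.Y4
  Pool.Agent.Y4.G Pool.Agent.Y4.K Pool.Agent.H943.KS

open Pool.Agent.Y4.H (exists_prims LZ Ct map_smul_aut' D_mem_LZ Dσ_mem_LZ)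

variable {g : ℕ} {Z : Matrix (Fin g) (Fin g) ℂ}

/-- Different points have different translates. -/
theorem t_sepY {G Y : Type} [Group G] [MulAction G Y] [Fintype Y] [DecidableEq Y] {p : ℕ}
    [hp : Fact p.Prime] {c' : Y → Y} {t : Y → ℕ} {N : ℕ} (hcc : ∀ y, c' (c' y) = y)
    (hcg : ∀ (σ : G) y, c' (σ • y) = σ • c' y) (hsum : ∀ y, t y + t (c' y) = N)
    (hodd : ¬ 2 ∣ N)
    (hgen : ∀ L : Y → ZMod p, (∀ y, L (c' y) = - L y) →
      (∀ σ : G, ∑ y, (t (σ • y) : ZMod p) * L y = 0) → L = 0)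
    {y y' : Y} (h : y ≠ y') : ∃ σ : G, t (σ • y) ≠ t (σ • y') := by
  by_contra hcon
  push Not at hcon
  have hne : ∀ y, c' y ≠ y := by
    intro y h1
    have h2 := hsum y
    rw [h1] at h2
    exact hodd ⟨t y, by omega⟩
  by_cases h1 : y' = c' y
  · have h2 := hsum y
    have h3 := hcon 1
    rw [one_smul, one_smul, h1] at h3
    exact hodd ⟨t y, by omega⟩
  · have h2 : c' y' ≠ y := by
      intro h2
      apply h1
      rw [← h2, hcc]
    have key := hgen (Pi.single y 1 - Pi.single (c' y) 1 - Pi.single y' 1 + Pi.single (c' y') 1)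
      (by
        intro z
        have e1 : ∀ w, (c' z = w) ↔ (z = c' w) := fun w =>
          ⟨fun h => by rw [← h, hcc], fun h => by rw [h, hcc]⟩
        have e2 : ∀ w, (c' z = c' w) ↔ (z = w) := fun w =>
          ⟨fun h => by rw [← hcc z, h, hcc], fun h => by rw [h]⟩
        simp only [Pi.add_apply, Pi.sub_apply, Pi.single_apply, e2, e1]
        ring)
      (by
        intro σ
        simp only [Pi.add_apply, Pi.sub_apply, mul_add, mul_sub, Finset.sum_add_distrib,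
          Finset.sum_sub_distrib, Pi.single_apply, mul_ite, mul_one, mul_zero, Finset.sum_ite_eq',
          Finset.mem_univ, if_true]
        have h3 := hsum (σ • y)
        have h4 := hsum (σ • y')
        rw [hcg] at h3 h4
        rw [hcon σ] at h3
        have h5 : t (σ • c' y) = t (σ • c' y') := by omega
        rw [hcon σ, h5]
        ring)
    have h3 := congrFun key y
    simp only [Pi.add_apply, Pi.sub_apply, Pi.single_apply, if_true, Pi.zero_apply] at h3
    rw [if_neg (hne y).symm, if_neg h, if_neg h2.symm] at h3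
    simp at h3

section

variable {F : Type} [Field F] [NumberField F] {j : F →+* MQ g} (M : Pol Z)
  {D : Subalgebra ℚ (MQ g)} (hD : Dv Z D) (hjD : ∀ a, j a ∈ D)
  (hjc : ∀ a, ∀ x ∈ D, j a * x = x * j a)
  {I : Type} [Fintype I] {ε : I → Pr Z} (Fm : Pol.Fam ε)

/-- The central idempotent of a class. -/
noncomputable def ceC (M : Pol Z) (ε : I → Pr Z) (x : Cl Z) :
    Matrix (Fin g ⊕ Fin g) (Fin g ⊕ Fin g) ℂ :=
  Quotient.liftOn' (s₁ := prSetoid Z) x (M.ce ε) (fun _ _ h => ce_eqv M h)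

theorem ceC_cl (φ : Pr Z) : ceC M ε (cl φ) = M.ce ε φ := rfl

/-- The multiplicity of an embedding at a class. -/
noncomputable def clRk (Z : Matrix (Fin g) (Fin g) ℂ) (j : F →+* MQ g) (x : Cl Z) (τ : F →+* ℂ) :
    ℕ := open Classical in
  if h : ∃ φ : Pr Z, cl φ = x then rk Z j h.choose τ else 0

include M hD hjD Fm in
theorem rk_cl (φ : Pr Z) (τ : F →+* ℂ) : clRk Z j (cl φ) τ = rk Z j φ τ := by
  classical
  have h : ∃ ψ : Pr Z, cl ψ = cl φ := ⟨φ, rfl⟩
  unfold clRk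
  rw [dif_pos h]
  exact rk_eqv M hD hjD Fm (cl_eq.1 h.choose_spec) τ

include Fm in
theorem sum_ceC [Fintype (Cl Z)] : ∑ x, ceC M ε x = 1 := by
  classical
  rw [← Fm.sum, ← Finset.sum_fiberwise (s := Finset.univ) (fun i => cl (ε i)) (fun i => (ε i).e)]
  refine Finset.sum_congr rfl fun x _ => ?_
  obtain ⟨φ, rfl⟩ := cl_surj x
  rw [ceC_cl]
  unfold Pol.ce
  refine Finset.sum_congr ?_ fun _ _ => rfl
  ext i
  simp only [Finset.mem_filter, Finset.mem_univ, true_and, cl_eq]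

include hD hjD Fm in
/-- The dimension of the tangent eigenspace. -/
theorem TF_cls [Fintype (Cl Z)] (τ : F →+* ℂ) :
    finrank ℂ (TF Z j τ) = ∑ x, clMu M x * clRk Z j x τ := by
  have h1 := dim_TF M (endo_j M hD hjD) τ
  have h2 : trace ((2 : ℂ)⁻¹ • ((1 + DZ Z) * pt j τ)) =
      ∑ x : Cl Z, ((clMu M x * clRk Z j x τ : ℕ) : ℂ) := by
    have h3 : pt j τ = ∑ x : Cl Z, ceC M ε x * pt j τ := by
      rw [← Finset.sum_mul, sum_ceC M Fm, one_mul]
    rw [h3, Finset.mul_sum, Finset.smul_sum, trace_sum]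
    refine Finset.sum_congr rfl fun x _ => ?_
    obtain ⟨φ, rfl⟩ := cl_surj x
    rw [ceC_cl, mu_cl, rk_cl M hD hjD Fm]
    exact trace_lk' M hD hjD Fm φ τ
  rw [h2] at h1
  exact_mod_cast h1

include hD hjD Fm in
/-- The dimension of the eigenspace in the homology. -/
theorem trace_pt_cls [Fintype (Cl Z)] {n' : ℕ} (φ₀ : Pr Z) (hn' : mu φ₀ + mu (M.bar φ₀) = n')
    (τ : F →+* ℂ) : trace (pt j τ) = ((∑ x : Cl Z, n' * clRk Z j x τ : ℕ) : ℂ) := by
  have h3 : pt j τ = ∑ x : Cl Z, ceC M ε x * pt j τ := by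
    rw [← Finset.sum_mul, sum_ceC M Fm, one_mul]
  rw [h3, trace_sum, Nat.cast_sum]
  refine Finset.sum_congr rfl fun x _ => ?_
  obtain ⟨φ, rfl⟩ := cl_surj x
  rw [ceC_cl, rk_cl M hD hjD Fm, trace_lk M hD hjD Fm φ τ, rank_const M hD φ φ₀, hn']

include hD hjD Fm in
/-- The dimension of the eigenspace in the homology. -/
theorem dim_pt [Fintype (Cl Z)] {n' : ℕ} (φ₀ : Pr Z) (hn' : mu φ₀ + mu (M.bar φ₀) = n')
    (τ : F →+* ℂ) : 2 * g = finrank ℚ F * ∑ x : Cl Z, n' * clRk Z j x τ := by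
  classical
  have h1 : trace (∑ τ : F →+* ℂ, pt j τ) = ((2 * g : ℕ) : ℂ) := by
    rw [sum_pt, trace_one, Fintype.card_sum, Fintype.card_fin]
    push_cast
    ring
  have h2 : ∀ τ' : F →+* ℂ, trace (pt j τ') = ((∑ x : Cl Z, n' * clRk Z j x τ : ℕ) : ℂ) := by
    intro τ'
    obtain ⟨σ, rfl⟩ := exists_aut_emb τ τ'
    have h3 : trace ((pt j τ).map (σ : ℂ →+* ℂ)) = σ (trace (pt j τ)) :=
      (AddMonoidHom.map_trace (σ : ℂ →+* ℂ).toAddMonoidHom _).symm
    rw [← pt_map, h3, trace_pt_cls M hD hjD Fm φ₀ hn' τ, map_natCast]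
  rw [trace_sum, Finset.sum_congr rfl fun τ' _ => h2 τ', Finset.sum_const, Finset.card_univ,
    nsmul_eq_mul, NumberField.Embeddings.card] at h1
  have h3 : ((finrank ℚ F * ∑ x : Cl Z, n' * clRk Z j x τ : ℕ) : ℂ) = ((2 * g : ℕ) : ℂ) := by
    rw [← h1]
    push_cast
    ring
  exact_mod_cast h3.symm

include M hD hjD Fm in
theorem rk_conj (φ : Pr Z) (τ : F →+* ℂ) :
    rk Z j (M.bar φ) ((starRingEnd ℂ).comp τ) = rk Z j φ τ := by
  rw [← rk_act M hD hjD Fm φ τ conjEq, rk_eqv M hD hjD Fm (M.act_conj φ)]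
  rfl

end

end Pool.Agent.H943.KF
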