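import Mathlib
import Pool.Agent.H943.KF.Cond
import Pool.Agent.H943.KF.CaseA
import Pool.Agent.H943.KS.Fin1

/-!
# The conditions of the criterion over a CM field
-/

set_option autoImplicit false
set_option linter.unusedSectionVars false

namespace Pool.Agent.H943.KF

open Matrix Module Pool.Agent.H204R3.CM Pool.Agent.H194R3.CM Pool.Agent.W437.HC
  Pool.Agent.W437.HD Pool.Agent.W437.HQ Pool.Agent.W548.Odd Pool.Agent.TH125 Pool.Agent.Y4
  Pool.Agent.Y4.G Pool.Agent.Y4.K Pool.Agent.H943.KS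

open Pool.Agent.Y4.H (exists_prims LZ Ct map_smul_aut' D_mem_LZ Dσ_mem_LZ)

/-- A normal subgroup of index prime to `N` in the stabilizers is transitive on the fibres, if their
order divides `N`. -/
theorem fib_trN {G X Y : Type} [Group G] [MulAction G X] [MulAction G Y] [Fintype X]
    {H : Subgroup G} (hn : H.Normal) {N : ℕ}
    (hco : ∀ y : Y, Nat.Coprime N (H.relIndex (MulAction.stabilizer G y))) {π : X → Y}
    (hπ : ∀ (σ : G) x, π (σ • x) = σ • π x)
    (htr : ∀ x x' : X, ∃ σ : G, σ • x = x') {x x' : X} (hxx : π x = π x')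
    (hb : Nat.card {z // π z = π x} ∣ N) : ∃ σ ∈ H, σ • x = x' := by
  classical
  let K : Subgroup G := MulAction.stabilizer G (π x)
  let S : Subgroup G := MulAction.stabilizer G x
  have h1 : S.relIndex K = Nat.card {z // π z = π x} := by
    have h2 : S.relIndex K = (MulAction.orbit K x).ncard := by
      rw [← MulAction.index_stabilizer]
      unfold Subgroup.relIndex
      congr 1
    have h3 : MulAction.orbit K x = {z | π z = π x} := by
      ext z
      constructor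
      · rintro ⟨σ, rfl⟩
        change π ((σ : G) • x) = π x
        rw [hπ]
        exact σ.2
      · intro hz
        obtain ⟨σ, rfl⟩ := htr x z
        refine ⟨⟨σ, ?_⟩, rfl⟩
        change σ • π x = π x
        rw [← hπ]
        exact hz
    rw [h2, h3]
    rfl
  have h2 : (H ⊔ S).relIndex K ∣ S.relIndex K := Subgroup.relIndex_dvd_of_le_left K le_sup_right
  have h3 : (H ⊔ S).relIndex K ∣ H.relIndex K := Subgroup.relIndex_dvd_of_le_left K le_sup_left
  have h5 : (H ⊔ S).relIndex K = 1 := by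
    rw [h1] at h2
    exact Nat.eq_one_of_dvd_coprimes (hco _) (h2.trans hb) h3
  have h6 : K ≤ H ⊔ S := Subgroup.relIndex_eq_one.1 h5
  obtain ⟨σ, rfl⟩ := htr x x'
  have hσ : σ ∈ K := by
    change σ • π x = π x
    rw [← hπ]
    exact hxx.symm
  obtain ⟨h, hh, s, hs, rfl⟩ := Subgroup.mem_sup_of_normal_left.1 (h6 hσ)
  refine ⟨h, hh, ?_⟩
  rw [mul_smul, MulAction.mem_stabilizer_iff.1 hs]

theorem ker_rel {G Y : Type} [Group G] [MulAction G Y] (y : Y) :
    (MulAction.toPermHom G Y).ker.relIndex (MulAction.stabilizer G y) =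
      Nat.card {π : (MulAction.toPermHom G Y).range // (π : Equiv.Perm Y) y = y} := by
  rw [Subgroup.relIndex_ker]
  refine Nat.card_congr
    { toFun := fun π => ⟨⟨π.1, by
          obtain ⟨σ, -, h⟩ := π.2
          exact ⟨σ, h⟩⟩, by
          obtain ⟨σ, h1, h2⟩ := π.2
          change (π.1) y = y
          rw [← h2]
          exact h1⟩
      invFun := fun π => ⟨π.1.1, by
          obtain ⟨⟨π, σ, hσ⟩, h⟩ := π
          refine ⟨σ, ?_, hσ⟩
          change π y = y at h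
          rw [← hσ] at h
          exact h⟩
      left_inv := fun π => rfl
      right_inv := fun π => rfl }

/-- The data over a base. -/
structure Dat {G X Y : Type} [Group G] [MulAction G X] [MulAction G Y] [Fintype X] [Fintype Y]
    [DecidableEq Y]
    (H : Subgroup G) (π : X → Y) (c : X → X) (c' : Y → Y) (r : X → ℕ) (n' : ℕ)
    (t : Y → ℕ) (N : ℕ) : Prop where
  normal : H.Normal
  triv : ∀ σ ∈ H, ∀ y : Y, σ • y = y
  cop : ∀ y : Y, Nat.Coprime N (H.relIndex (MulAction.stabilizer G y))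
  eqv : ∀ (σ : G) x, π (σ • x) = σ • π x
  tr : ∀ x x' : X, ∃ σ : G, σ • x = x'
  surj : ∀ y, ∃ x, π x = y
  cc : ∀ x, c (c x) = x
  cg : ∀ (σ : G) x, c (σ • x) = σ • c x
  pc : ∀ x, π (c x) = c' (π x)
  trH : ∀ x z, π x = π z → ∃ σ ∈ H, σ • x = z
  sum : ∀ x, r x + r (c x) = n'
  fib : ∀ y, ∑ x : {x // π x = y}, r x = t y
  card : ∀ y, n' * Fintype.card {x // π x = y} = N

/-- The conclusion. -/
structure Con {G X : Type} [Group G] [MulAction G X] [Fintype X] (c : X → X) (r : X → ℕ)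
    (n' : ℕ) : Prop where
  cop : ∀ x : X, ∃ σ : G, Nat.Coprime (r (σ • x)) (r (c (σ • x)))
  sep : ∀ x y : X, y ≠ x → y ≠ c x → n' ≠ 1 → (∀ σ : G, r (σ • x) = r (σ • y) ∨
    (r (σ • x) * r (c (σ • x)) = 0 ∧ r (σ • y) * r (c (σ • y)) = 0)) → False
  nd : ∀ lam : X → ℂ, (∀ x, lam (c x) = - lam x) →
    (∀ σ : G, ∑ x, ((r (σ • x) : ℂ) - r (c (σ • x))) * lam x = 0) → lam = 0

variable {g : ℕ} {Z : Matrix (Fin g) (Fin g) ℂ}

variable {F : Type} [Field F] [NumberField F] {j : F →+* MQ g} (M : Pol Z)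
  {D : Subalgebra ℚ (MQ g)} (hD : Dv Z D) (hjD : ∀ a, j a ∈ D)
  (hjc : ∀ a, ∀ x ∈ D, j a * x = x * j a)

include M hD hjD hjc in
/-- **The data of an abelian variety.** -/
theorem dat_gen
    {n N : ℕ}
    (hn : finrank ℚ D = n ^ 2 * finrank ℚ (Subalgebra.center ℚ D)) (hN0 : 0 < N) (hg : 0 < g)
    (hdim : 2 * g = finrank ℚ F * (n * N)) (t : (F →+* ℂ) → ℕ)
    (ht : ∀ τ, finrank ℂ (TF Z j τ) = n * t τ)
    (hcop : ∀ τ : F →+* ℂ, Nat.Coprime N (Nat.card
      {π : (@MulAction.toPermHom (RingAut ℂ) (F →+* ℂ) _ (embAct F)).range //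
        (π : Equiv.Perm (F →+* ℂ)) τ = τ}))
    (hplace : (∀ τ, t τ + t ((starRingEnd ℂ).comp τ) = N) → ∃ τ, Nat.Coprime (t τ) N)
    (hsepY : (∀ τ, t τ + t ((starRingEnd ℂ).comp τ) = N) →
      (∀ τ τ' : F →+* ℂ, ∃ σ : ℂ ≃+* ℂ, (σ : ℂ →+* ℂ).comp τ = τ') →
      ∀ τ τ' : F →+* ℂ, τ ≠ τ' → ∃ σ : ℂ ≃+* ℂ,
        t ((σ : ℂ →+* ℂ).comp τ) ≠ t ((σ : ℂ →+* ℂ).comp τ')) :
    ∃ (_ : Fintype (Cl Z)) (H : Subgroup (RingAut ℂ)) (π : Cl Z → (F →+* ℂ)) (n' : ℕ),
      (∀ τ, t τ + t ((starRingEnd ℂ).comp τ) = N) ∧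
      (letI := clAct M
       letI := embAct F
       Dat H π (clBar M) (fun τ => (starRingEnd ℂ).comp τ) (clMu M) n' t N) := by
  classical
  have hn0 : 0 < n := by
    rcases Nat.eq_zero_or_pos n with h | h
    · rw [h, zero_mul, mul_zero] at hdim
      omega
    · exact h
  have hF0 : 0 < finrank ℚ F := finrank_pos
  obtain ⟨I, hI, ε, f1, f2, f3⟩ := M.exists_family
  have Fm : Pol.Fam ε := ⟨f1, f2, f3⟩
  have hIne : Nonempty I := by
    by_contra hI0
    rw [not_nonempty_iff] at hI0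
    rw [Finset.univ_eq_empty, Finset.sum_empty] at f3
    have h1 : trace (1 : Matrix (Fin g ⊕ Fin g) (Fin g ⊕ Fin g) ℂ) = 0 := by
      rw [← f3, trace_zero]
    rw [trace_one, Fintype.card_sum, Fintype.card_fin] at h1
    have h2 : g + g = 0 := by exact_mod_cast h1
    omega
  obtain ⟨i0⟩ := hIne
  obtain ⟨φ₀, hφ₀⟩ : ∃ φ₀, φ₀ = ε i0 := ⟨_, rfl⟩
  obtain ⟨n', hn'⟩ : ∃ n', mu φ₀ + mu (M.bar φ₀) = n' := ⟨_, rfl⟩
  have hn'0 : 0 < n' := by
    rw [← hn']
    exact M.mu_pos φ₀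
  have : Finite (Cl Z) := cl_finite M
  let _ : Fintype (Cl Z) := Fintype.ofFinite _
  let _ := clAct M
  let _ := embAct F
  have hnt : Nontrivial D := by
    refine ⟨⟨0, 1, fun h => ?_⟩⟩
    have h1 : (0 : MQ g) = 1 := congrArg Subtype.val h
    have h2 := congrFun (congrFun h1 (Sum.inl ⟨0, hg⟩)) (Sum.inl ⟨0, hg⟩)
    rw [Matrix.zero_apply, Matrix.one_apply_eq] at h2
    exact zero_ne_one h2
  have hsmτ : ∀ (σ : RingAut ℂ) (τ : F →+* ℂ), σ • τ = (σ : ℂ →+* ℂ).comp τ := fun _ _ => rfl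
  have hsmx : ∀ (σ : RingAut ℂ) (φ : Pr Z), σ • cl φ = cl (M.act σ φ) := fun _ _ => rfl
  -- the multiplicities
  have R1 : ∀ (σ : RingAut ℂ) (x : Cl Z) (τ : F →+* ℂ), clRk Z j (σ • x) (σ • τ) = clRk Z j x τ := by
    intro σ x τ
    obtain ⟨φ, rfl⟩ := cl_surj x
    rw [hsmx, hsmτ, rk_cl M hD hjD Fm, rk_cl M hD hjD Fm, rk_act M hD hjD Fm]
  have R2 : ∀ (x : Cl Z) (τ : F →+* ℂ), clRk Z j (clBar M x) ((starRingEnd ℂ).comp τ) =
      clRk Z j x τ := by
    intro x τ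
    obtain ⟨φ, rfl⟩ := cl_surj x
    rw [bar_cl, rk_cl M hD hjD Fm, rk_cl M hD hjD Fm, rk_conj M hD hjD Fm]
  have R3 : ∀ {x y : Cl Z} {τ τ' : F →+* ℂ}, clRk Z j x τ ≠ 0 → clRk Z j y τ' ≠ 0 →
      ∃ σ : RingAut ℂ, σ • x = y ∧ σ • τ = τ' := by
    intro x y τ τ' h1 h2
    obtain ⟨φ, rfl⟩ := cl_surj x
    obtain ⟨ψ, rfl⟩ := cl_surj y
    rw [rk_cl M hD hjD Fm] at h1 h2
    obtain ⟨σ, h3, h4⟩ := pair_tr M hD hjD hjc Fm h1 h2
    exact ⟨σ, cl_eq.2 h3, h4⟩
  have R4 : ∀ {x y : Cl Z} {τ τ' : F →+* ℂ}, clRk Z j x τ ≠ 0 → clRk Z j y τ' ≠ 0 →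
      clRk Z j x τ = clRk Z j y τ' := by
    intro x y τ τ' h1 h2
    obtain ⟨σ, rfl, rfl⟩ := R3 h1 h2
    rw [R1]
  have R5 : ∀ (x : Cl Z) (τ : F →+* ℂ), clRk Z j x τ ≠ 0 → n ≤ clRk Z j x τ := by
    intro x τ h
    obtain ⟨φ, rfl⟩ := cl_surj x
    rw [rk_cl M hD hjD Fm] at h ⊢
    exact degree_le_rk M hD hjD hjc Fm hn h
  have D1 : ∀ τ, ∑ x : Cl Z, n' * clRk Z j x τ = n * N := by
    intro τ
    have h1 := dim_pt M hD hjD Fm φ₀ hn' τ
    rw [hdim] at h1
    exact (Nat.eq_of_mul_eq_mul_left hF0 h1).symm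
  have D2 : ∀ τ, ∑ x : Cl Z, clMu M x * clRk Z j x τ = n * t τ := by
    intro τ
    rw [← TF_cls M hD hjD Fm τ, ht]
  have hmu : ∀ x : Cl Z, clMu M x + clMu M (clBar M x) = n' := by
    intro x
    obtain ⟨φ, rfl⟩ := cl_surj x
    rw [bar_cl, mu_cl, mu_cl, ← hn']
    exact rank_const M hD φ φ₀
  have hcc : ∀ x : Cl Z, clBar M (clBar M x) = x := by
    intro x
    obtain ⟨φ, rfl⟩ := cl_surj x
    rw [bar_cl, bar_cl, M.bar_bar]
  have hcg : ∀ (σ : RingAut ℂ) (x : Cl Z), clBar M (σ • x) = σ • clBar M x := by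
    intro σ x
    obtain ⟨φ, rfl⟩ := cl_surj x
    change cl (M.bar (M.act σ φ)) = cl (M.act σ (M.bar φ))
    rw [M.bar_act]
  have hconj : ∀ τ : F →+* ℂ, (starRingEnd ℂ).comp ((starRingEnd ℂ).comp τ) = τ := by
    intro τ
    ext x
    simp
  have tsum : ∀ τ, t τ + t ((starRingEnd ℂ).comp τ) = N := by
    intro τ
    have h1 : ∑ x : Cl Z, clMu M x * clRk Z j x ((starRingEnd ℂ).comp τ) =
        ∑ x : Cl Z, clMu M (clBar M x) * clRk Z j x τ := by
      refine Fintype.sum_equiv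
        { toFun := clBar M, invFun := clBar M, left_inv := hcc, right_inv := hcc } _ _ fun x => ?_
      change _ = clMu M (clBar M (clBar M x)) * clRk Z j (clBar M x) τ
      rw [hcc, ← R2 (clBar M x) τ, hcc]
    have h2 : n * (t τ + t ((starRingEnd ℂ).comp τ)) = n * N := by
      rw [mul_add, ← D2, ← D2, h1, ← Finset.sum_add_distrib, ← D1 τ]
      refine Finset.sum_congr rfl fun x _ => ?_
      rw [← add_mul, hmu]
    exact Nat.eq_of_mul_eq_mul_left hn0 h2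
  -- a pair
  have hY : Nonempty (F →+* ℂ) := inferInstance
  obtain ⟨τ₁⟩ := hY
  have Rex : ∀ τ : F →+* ℂ, ∃ x : Cl Z, clRk Z j x τ ≠ 0 := by
    intro τ
    by_contra hcon
    push Not at hcon
    have h1 := D1 τ
    rw [Finset.sum_eq_zero (fun x _ => by rw [hcon x, mul_zero])] at h1
    have h2 : 0 < n * N := Nat.mul_pos hn0 hN0
    omega
  obtain ⟨ρ, hρ⟩ : ∃ ρ : ℕ, ∀ x τ, clRk Z j x τ ≠ 0 → clRk Z j x τ = ρ := by
    obtain ⟨x1, hx1⟩ := Rex τ₁
    exact ⟨clRk Z j x1 τ₁, fun x τ h => R4 h hx1⟩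
  have hnρ : n ≤ ρ := by
    obtain ⟨x1, hx1⟩ := Rex τ₁
    rw [← hρ x1 τ₁ hx1]
    exact R5 x1 τ₁ hx1
  have hind : ∀ (f : Cl Z → ℕ) (τ : F →+* ℂ), ∑ x : Cl Z, f x * clRk Z j x τ =
      ρ * ∑ x ∈ Finset.univ.filter (fun x => clRk Z j x τ ≠ 0), f x := by
    intro f τ
    rw [Finset.sum_filter, Finset.mul_sum]
    refine Finset.sum_congr rfl fun x _ => ?_
    by_cases h : clRk Z j x τ = 0
    · rw [h, if_neg (not_not.2 rfl)]
      ring
    · rw [if_pos h, hρ x τ h, mul_comm]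
  obtain ⟨τ₀, hcopN⟩ := hplace tsum
  -- the multiplicity is the degree
  have hρn : ρ = n := by
    have e1 := D2 τ₀
    rw [hind] at e1
    have e2 := D1 τ₀
    rw [hind] at e2
    have hs : 0 < ρ := by omega
    obtain ⟨h, a, b, hh, hab, hsa, hnb⟩ := Nat.exists_coprime' (m := ρ) (n := n)
      (Nat.gcd_pos_of_pos_left n hs)
    have e3 : a * (∑ x ∈ Finset.univ.filter (fun x => clRk Z j x τ₀ ≠ 0), clMu M x) = b * t τ₀ := by
      apply Nat.eq_of_mul_eq_mul_right hh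
      calc a * (∑ x ∈ Finset.univ.filter (fun x => clRk Z j x τ₀ ≠ 0), clMu M x) * h =
          a * h * (∑ x ∈ Finset.univ.filter (fun x => clRk Z j x τ₀ ≠ 0), clMu M x) := by ring
      _ = b * h * t τ₀ := by rw [← hsa, ← hnb, e1]
      _ = b * t τ₀ * h := by ring
    have e4 : a * (∑ x ∈ Finset.univ.filter (fun x => clRk Z j x τ₀ ≠ 0), n') = b * N := by
      apply Nat.eq_of_mul_eq_mul_right hh
      calc a * (∑ x ∈ Finset.univ.filter (fun x => clRk Z j x τ₀ ≠ 0), n') * h =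
          a * h * (∑ x ∈ Finset.univ.filter (fun x => clRk Z j x τ₀ ≠ 0), n') := by ring
      _ = b * h * N := by rw [← hsa, ← hnb, e2]
      _ = b * N * h := by ring
    have d1 : a ∣ t τ₀ := hab.dvd_of_dvd_mul_left ⟨_, e3.symm⟩
    have d2 : a ∣ N := hab.dvd_of_dvd_mul_left ⟨_, e4.symm⟩
    have ha : a = 1 := Nat.eq_one_of_dvd_coprimes hcopN d1 d2
    rw [ha, one_mul] at hsa
    have h1 : ρ ∣ n := ⟨b, by rw [hnb, hsa, mul_comm]⟩
    have h2 := Nat.le_of_dvd hn0 h1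
    omega
  subst hρn
  have D1' : ∀ τ : F →+* ℂ, n' * (Finset.univ.filter (fun x => clRk Z j x τ ≠ 0)).card = N := by
    intro τ
    have h1 := D1 τ
    rw [hind, Finset.sum_const, smul_eq_mul] at h1
    rw [mul_comm]
    exact Nat.eq_of_mul_eq_mul_left hn0 h1
  have D2' : ∀ τ : F →+* ℂ, ∑ x ∈ Finset.univ.filter (fun x => clRk Z j x τ ≠ 0), clMu M x = t τ := by
    intro τ
    have h1 := D2 τ
    rw [hind] at h1
    exact Nat.eq_of_mul_eq_mul_left hn0 h1
  -- the subgroup which acts trivially on the embeddings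
  obtain ⟨H, hH⟩ : ∃ H : Subgroup (RingAut ℂ),
      H = (MulAction.toPermHom (RingAut ℂ) (F →+* ℂ)).ker := ⟨_, rfl⟩
  have hHn : H.Normal := by
    rw [hH]
    infer_instance
  have hHt : ∀ σ ∈ H, ∀ τ : F →+* ℂ, σ • τ = τ := by
    intro σ hσ τ
    rw [hH, MonoidHom.mem_ker] at hσ
    exact congrArg (fun e : Equiv.Perm (F →+* ℂ) => e τ) hσ
  have hHi : ∀ τ : F →+* ℂ, Nat.Coprime N (H.relIndex (MulAction.stabilizer (RingAut ℂ) τ)) := by
    intro τ
    rw [hH, ker_rel]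
    exact hcop τ
  -- the linked pairs
  let W : Type := {w : Cl Z × (F →+* ℂ) // clRk Z j w.1 w.2 ≠ 0}
  let _ : Fintype W := inferInstanceAs (Fintype {w : Cl Z × (F →+* ℂ) // clRk Z j w.1 w.2 ≠ 0})
  let _ : MulAction (RingAut ℂ) W :=
    { smul := fun σ w => ⟨(σ • w.1.1, σ • w.1.2), by
        rw [R1]
        exact w.2⟩
      one_smul := fun w => Subtype.ext (Prod.ext (one_smul _ w.1.1) (one_smul _ w.1.2))
      mul_smul := fun σ ρ w => Subtype.ext (Prod.ext (mul_smul σ ρ w.1.1) (mul_smul σ ρ w.1.2)) }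
  have hfib : ∀ (x y : Cl Z) (τ : F →+* ℂ), clRk Z j x τ ≠ 0 → clRk Z j y τ ≠ 0 →
      ∃ σ ∈ H, σ • x = y := by
    intro x y τ hx hy
    obtain ⟨σ, hσ, h1⟩ := fib_trN (G := RingAut ℂ) (X := W) (Y := F →+* ℂ) (H := H) hHn hHi
      (π := fun w => w.1.2) (fun _ _ => rfl) (by
        intro w w'
        obtain ⟨σ, h1, h2⟩ := R3 w.2 w'.2
        exact ⟨σ, Subtype.ext (Prod.ext h1 h2)⟩) (x := ⟨(x, τ), hx⟩) (x' := ⟨(y, τ), hy⟩) rfl (by
        refine Dvd.intro_left n' ?_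
        rw [← D1' τ, Nat.card_eq_fintype_card, ← Fintype.card_coe]
        congr 1
        exact Fintype.card_congr
          { toFun := fun w => ⟨w.1.1.1, by
              have h2 : w.1.1.2 = τ := w.2
              have h3 := w.1.2
              rw [h2] at h3
              exact Finset.mem_filter.2 ⟨Finset.mem_univ _, h3⟩⟩
            invFun := fun z => ⟨⟨(z.1, τ), (Finset.mem_filter.1 z.2).2⟩, rfl⟩
            left_inv := by
              rintro ⟨⟨⟨z, τ'⟩, h2⟩, h3⟩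
              have h4 : τ' = τ := h3
              subst h4
              rfl
            right_inv := fun z => rfl })
    refine ⟨σ, hσ, ?_⟩
    exact congrArg (fun w : W => w.1.1) h1
  -- each class is linked with one embedding
  have U : ∀ (x : Cl Z) (τ τ' : F →+* ℂ), clRk Z j x τ ≠ 0 → clRk Z j x τ' ≠ 0 → τ = τ' := by
    intro x τ τ' h1 h2
    by_contra hne
    obtain ⟨σ, hσ⟩ : ∃ σ : RingAut ℂ, t (σ • τ) ≠ t (σ • τ') := hsepY tsum (fun τ₁ τ₂ => by
      obtain ⟨x1, hx1⟩ := Rex τ₁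
      obtain ⟨x2, hx2⟩ := Rex τ₂
      obtain ⟨σ, -, hσ⟩ := R3 hx1 hx2
      exact ⟨σ, hσ⟩) τ τ' hne
    apply hσ
    rw [← D2', ← D2']
    congr 1
    ext y
    simp only [Finset.mem_filter, Finset.mem_univ, true_and]
    have h3 : clRk Z j (σ • x) (σ • τ) ≠ 0 := by rwa [R1]
    have h4 : clRk Z j (σ • x) (σ • τ') ≠ 0 := by rwa [R1]
    constructor
    · intro h5
      obtain ⟨ρ, hρ, rfl⟩ := hfib _ _ _ h3 h5
      rw [← hHt ρ hρ (σ • τ'), R1]
      exact h4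
    · intro h5
      obtain ⟨ρ, hρ, rfl⟩ := hfib _ _ _ h4 h5
      rw [← hHt ρ hρ (σ • τ), R1]
      exact h3
  have Ex : ∀ x : Cl Z, ∃ τ : F →+* ℂ, clRk Z j x τ ≠ 0 := by
    intro x
    obtain ⟨φ, rfl⟩ := cl_surj x
    by_contra hcon
    push Not at hcon
    have h1 : M.ce ε φ = 0 := by
      rw [← mul_one (M.ce ε φ), ← sum_pt j, Finset.mul_sum]
      refine Finset.sum_eq_zero fun τ _ => ?_
      by_contra h2
      have h3 := (lk_iff M hD hjD Fm φ τ).1 h2
      rw [← rk_cl M hD hjD Fm, hcon τ] at h3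
      exact h3 rfl
    have h2 := M.ce_mul Fm (φ := φ) (ψ := φ)
    rw [h1, zero_mul, if_pos (Eqv.refl φ)] at h2
    exact φ.ne h2.symm
  choose π hπ using Ex
  have hπ' : ∀ (x : Cl Z) (τ : F →+* ℂ), π x = τ ↔ clRk Z j x τ ≠ 0 := by
    intro x τ
    constructor
    · rintro rfl
      exact hπ x
    · intro h
      exact U x _ _ (hπ x) h
  have hfilt : ∀ τ, Finset.univ.filter (fun x => π x = τ) =
      Finset.univ.filter (fun x => clRk Z j x τ ≠ 0) := by
    intro τ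
    ext x
    simp only [Finset.mem_filter, Finset.mem_univ, true_and, hπ']
  have eqv : ∀ (σ : RingAut ℂ) (x : Cl Z), π (σ • x) = σ • π x := by
    intro σ x
    rw [hπ', R1]
    exact hπ x
  have tr : ∀ x x' : Cl Z, ∃ σ : RingAut ℂ, σ • x = x' := by
    intro x x'
    obtain ⟨σ, h1, -⟩ := R3 (hπ x) (hπ x')
    exact ⟨σ, h1⟩
  have card : ∀ y, n' * Fintype.card {x // π x = y} = N := by
    intro τ
    rw [Fintype.card_subtype, hfilt, D1']
  exact ⟨inferInstance, H, π, n', tsum,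
    { normal := hHn
      triv := hHt
      cop := hHi
      eqv := eqv
      tr := tr
      surj := by
        intro τ
        obtain ⟨x, hx⟩ := Rex τ
        exact ⟨x, (hπ' x τ).2 hx⟩
      cc := hcc
      cg := hcg
      pc := by
        intro x
        rw [hπ', R2]
        exact hπ x
      trH := fun x z hxz => hfib x z (π z) (by rw [← hxz]; exact hπ x) (hπ z)
      sum := hmu
      fib := by
        intro τ
        rw [← D2', ← hfilt]
        exact (Finset.sum_subtype _ (fun x => by simp) _).symm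
      card := card }⟩

include M hD in
/-- The conditions of the criterion follow from the combinatorial conditions. -/
theorem conds_of_con [Fintype (Cl Z)] {n' : ℕ}
    (hmu : ∀ x : Cl Z, clMu M x + clMu M (clBar M x) = n')
    (S : letI := clAct M
      Con (G := RingAut ℂ) (clBar M) (clMu M) n') :
    M.Cop ∧ M.Sep ∧ M.Nd := by
  classical
  let _ := clAct M
  refine ⟨?_, ?_, ?_⟩
  · intro φ
    obtain ⟨σ, hσ⟩ := S.cop (cl φ)
    exact ⟨σ, hσ⟩
  · intro φ ψ h1 h2 h3 h4 h5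
    exfalso
    refine S.sep (cl φ) (cl ψ) (fun h => h1 (cl_eq.1 h)) (fun h => h2 (cl_eq.1 h))
      ?_ ?_
    · intro h6
      apply h4
      rw [← h6]
      exact hmu (cl φ)
    · intro σ
      exact h5 σ
  · intro J hJ η Fη lam hl1 hl2 hl3 φ
    let lam' : Cl Z → ℂ := fun x => Quotient.liftOn' (s₁ := prSetoid Z) x lam hl1
    have h0 : lam' = 0 := by
      refine S.nd lam' ?_ ?_
      · intro x
        obtain ⟨ψ, rfl⟩ := cl_surj x
        exact hl2 ψ
      · intro σ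
        have h1 := sum_cls M Fη hD φ (fun x => ((clMu M (σ • x) : ℂ) -
          clMu M (clBar M (σ • x))) * lam' x)
        have h2 := hl3 σ
        have h3 : ∑ i, (fun x => ((clMu M (σ • x) : ℂ) -
          clMu M (clBar M (σ • x))) * lam' x) (cl (η i)) = 0 := by
          rw [← h2]
          exact Finset.sum_congr rfl fun i _ => rfl
        rw [h3] at h1
        exact (mul_eq_zero.1 h1.symm).resolve_left
          (Nat.cast_ne_zero.2 (cnt_pos M Fη _).ne')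
    exact congrFun h0 (cl φ)

include M hD hjD hjc in
/-- **The conditions of the criterion.** -/
theorem conds_gen
    {n N : ℕ}
    (hn : finrank ℚ D = n ^ 2 * finrank ℚ (Subalgebra.center ℚ D)) (hN0 : 0 < N)
    (hdim : 2 * g = finrank ℚ F * (n * N)) (t : (F →+* ℂ) → ℕ)
    (ht : ∀ τ, finrank ℂ (TF Z j τ) = n * t τ)
    (hcop : ∀ τ : F →+* ℂ, Nat.Coprime N (Nat.card
      {π : (@MulAction.toPermHom (RingAut ℂ) (F →+* ℂ) _ (embAct F)).range //
        (π : Equiv.Perm (F →+* ℂ)) τ = τ}))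
    (hplace : (∀ τ, t τ + t ((starRingEnd ℂ).comp τ) = N) → ∃ τ, Nat.Coprime (t τ) N)
    (hsepY : (∀ τ, t τ + t ((starRingEnd ℂ).comp τ) = N) →
      (∀ τ τ' : F →+* ℂ, ∃ σ : ℂ ≃+* ℂ, (σ : ℂ →+* ℂ).comp τ = τ') →
      ∀ τ τ' : F →+* ℂ, τ ≠ τ' → ∃ σ : ℂ ≃+* ℂ,
        t ((σ : ℂ →+* ℂ).comp τ) ≠ t ((σ : ℂ →+* ℂ).comp τ'))
    (hcomb : (∀ τ, t τ + t ((starRingEnd ℂ).comp τ) = N) →
      ∀ (X : Type) [Fintype X] [MulAction (RingAut ℂ) X] (H : Subgroup (RingAut ℂ))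
      (π : X → (F →+* ℂ)) (c : X → X) (r : X → ℕ) (n' : ℕ),
      (letI := embAct F
       Dat H π c (fun τ => (starRingEnd ℂ).comp τ) r n' t N) → Con (G := RingAut ℂ) c r n') :
    M.Cop ∧ M.Sep ∧ M.Nd := by
  classical
  by_cases hg : 0 < g
  swap
  · exact conds_zero M (by omega)
  obtain ⟨i1, H, π, n', tsum, S⟩ := dat_gen M hD hjD hjc hn hN0 hg hdim t ht hcop hplace hsepY
  let _ := clAct M
  let _ := embAct F
  exact conds_of_con M hD S.sum (hcomb tsum (Cl Z) H π (clBar M) (clMu M) n' S)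

end Pool.Agent.H943.KF
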