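import Mathlib
import Pool.Agent.H943.KF.Cond
import Pool.Agent.H943.KS.Fin1

/-!
# Signatures concentrated at one place
-/

set_option autoImplicit false
set_option linter.unusedSectionVars false

namespace Pool.Agent.H943.KF

open Matrix Module Pool.Agent.H204R3.CM Pool.Agent.H194R3.CM Pool.Agent.W437.HC
  Pool.Agent.W437.HD Pool.Agent.W437.HQ Pool.Agent.W548.Odd Pool.Agent.TH125 Pool.Agent.Y4
  Pool.Agent.Y4.G Pool.Agent.Y4.K Pool.Agent.H943.KS

open Pool.Agent.Y4.H (exists_prims LZ Ct map_smul_aut' D_mem_LZ Dσ_mem_LZ)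

open NumberField

variable {F : Type} [Field F] [NumberField F] [IsCMField F]

theorem cm_comm (σ : ℂ ≃+* ℂ) (τ : F →+* ℂ) :
    (starRingEnd ℂ).comp ((σ : ℂ →+* ℂ).comp τ) = (σ : ℂ →+* ℂ).comp ((starRingEnd ℂ).comp τ) := by
  ext x
  have h1 := IsCMField.complexEmbedding_complexConj F ((σ : ℂ →+* ℂ).comp τ) x
  have h2 := IsCMField.complexEmbedding_complexConj F τ x
  change (starRingEnd ℂ) (((σ : ℂ →+* ℂ).comp τ) x) = σ ((starRingEnd ℂ) (τ x))
  rw [← h1, ← h2]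
  rfl

theorem cm_ne (τ : F →+* ℂ) : (starRingEnd ℂ).comp τ ≠ τ := by
  intro h
  apply IsCMField.complexConj_ne_one (K := F)
  ext x
  have h1 := IsCMField.complexEmbedding_complexConj F τ x
  apply τ.injective
  rw [h1]
  exact congrArg (fun f : F →+* ℂ => f x) h

/-- A signature concentrated at one place is generating. -/
theorem one_place {p N c : ℕ} [hp : Fact p.Prime] (hp2 : p ≠ 2) (hN : N = p ^ c)
    (t : (F →+* ℂ) → ℕ) (ht : ∀ τ, t τ + t ((starRingEnd ℂ).comp τ) = N) {τ₀ : F →+* ℂ}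
    (h0 : ¬ p ∣ t τ₀) (h1 : ∀ τ, τ ≠ τ₀ → τ ≠ (starRingEnd ℂ).comp τ₀ → p ∣ t τ)
    (L : (F →+* ℂ) → ZMod p) (hL : ∀ τ, L ((starRingEnd ℂ).comp τ) = - L τ)
    (h : ∀ σ : ℂ ≃+* ℂ, ∑ τ, (t ((σ : ℂ →+* ℂ).comp τ) : ZMod p) * L τ = 0) : L = 0 := by
  classical
  funext τ₁
  obtain ⟨σ, hσ⟩ := exists_aut_emb τ₁ τ₀
  have h2 := h σ
  have hσ' : (σ : ℂ →+* ℂ).comp ((starRingEnd ℂ).comp τ₁) = (starRingEnd ℂ).comp τ₀ := by
    rw [← cm_comm, hσ]
  have hinj : ∀ τ τ' : F →+* ℂ, (σ : ℂ →+* ℂ).comp τ = (σ : ℂ →+* ℂ).comp τ' → τ = τ' := by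
    intro τ τ' h3
    ext x
    apply σ.injective
    exact congrArg (fun f : F →+* ℂ => f x) h3
  rw [← Finset.add_sum_erase Finset.univ _ (Finset.mem_univ τ₁),
    ← Finset.add_sum_erase (Finset.univ.erase τ₁) _
      (Finset.mem_erase.2 ⟨cm_ne τ₁, Finset.mem_univ ((starRingEnd ℂ).comp τ₁)⟩),
    Finset.sum_eq_zero, add_zero, hσ, hσ', hL] at h2
  · have h3 : ((t τ₀ : ZMod p) - t ((starRingEnd ℂ).comp τ₀)) * L τ₁ = 0 := by
      linear_combination h2
    refine (mul_eq_zero.1 h3).resolve_left ?_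
    have h4 : (t τ₀ : ZMod p) + t ((starRingEnd ℂ).comp τ₀) = N := by
      rw [← ht τ₀, Nat.cast_add]
    have h5 : (2 : ZMod p) ≠ 0 := by
      intro h6
      have h7 : ((2 : ℕ) : ZMod p) = 0 := by exact_mod_cast h6
      rw [ZMod.natCast_eq_zero_iff] at h7
      exact hp2 ((Nat.prime_dvd_prime_iff_eq hp.out Nat.prime_two).1 h7)
    have h6 : (t τ₀ : ZMod p) ≠ 0 := by
      intro h7
      exact h0 ((ZMod.natCast_eq_zero_iff _ _).1 h7)
    rcases Nat.eq_zero_or_pos c with hc | hc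
    · subst hc
      rw [pow_zero] at hN
      have h7 := ht τ₀
      have h8 : t τ₀ ≠ 0 := by
        intro h9
        exact h0 (by rw [h9]; exact dvd_zero p)
      have h9 : t τ₀ = 1 := by omega
      have h10 : t ((starRingEnd ℂ).comp τ₀) = 0 := by omega
      rw [h9, h10, Nat.cast_one, Nat.cast_zero, sub_zero]
      exact one_ne_zero
    · have h7 : (N : ZMod p) = 0 := by
        rw [hN, Nat.cast_pow, ZMod.natCast_self, zero_pow hc.ne']
      rw [h7] at h4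
      intro h8
      have h9 : (2 : ZMod p) * t τ₀ = 0 := by linear_combination h4 + h8
      exact (mul_ne_zero h5 h6) h9
  · intro τ hτ
    rw [Finset.mem_erase, Finset.mem_erase] at hτ
    have h3 : p ∣ t ((σ : ℂ →+* ℂ).comp τ) := by
      apply h1
      · intro h4
        rw [← hσ] at h4
        exact hτ.2.1 (hinj _ _ h4)
      · intro h4
        rw [← hσ'] at h4
        exact hτ.1 (hinj _ _ h4)
    rw [(ZMod.natCast_eq_zero_iff _ _).2 h3, zero_mul]

end Pool.Agent.H943.KF
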