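import Mathlib
import Pool.Agent.H943.KF.Gen
import Pool.Agent.H943.KF.Quad

/-!
# The Hodge classes: one indefinite place, or prime powers
-/

set_option autoImplicit false
set_option linter.unusedSectionVars false

namespace Pool.Agent.H943.KF

open Matrix Module Pool.Agent.H204R3.CM Pool.Agent.H194R3.CM Pool.Agent.W437.HC
  Pool.Agent.W437.HD Pool.Agent.W437.HQ Pool.Agent.W548.Odd Pool.Agent.TH125 Pool.Agent.Y4
  Pool.Agent.Y4.G Pool.Agent.Y4.K Pool.Agent.H943.KS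

open NumberField

variable {g : ℕ} {Z : Matrix (Fin g) (Fin g) ℂ}

variable {F : Type} [Field F] [NumberField F] [IsCMField F]

theorem good_of {t N : ℕ} (h3 : 3 ≤ N) (hc : Nat.Coprime t N) (h : t ≤ 2 ∨ IsPrimePow N) :
    Good t N := by
  refine ⟨h3, ?_⟩
  rcases h with h | h
  · rcases Nat.lt_or_ge t 1 with h1 | h1
    · have h2 : t = 0 := by omega
      rw [h2, Nat.coprime_zero_left] at hc
      omega
    · rcases Nat.lt_or_ge t 2 with h2 | h2
      · exact Or.inl (by omega)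
      · have h4 : t = 2 := by omega
        refine Or.inr (Or.inl ⟨h4, ?_⟩)
        rw [h4] at hc
        exact (Nat.Prime.coprime_iff_not_dvd Nat.prime_two).1 hc
  · obtain ⟨p, c, hp, hc0, hN⟩ := h
    have hp' : p.Prime := Nat.prime_iff.2 hp
    refine Or.inr (Or.inr ⟨p, c, hp', hN.symm, fun h1 => ?_⟩)
    have h2 : p ∣ N := by
      rw [← hN]
      exact dvd_pow_self p hc0.ne'
    have h4 := Nat.dvd_gcd h1 h2
    rw [hc] at h4
    exact hp'.one_lt.ne' (Nat.dvd_one.1 h4)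

/-- One indefinite place. -/
def GoodA (N : ℕ) (t : (F →+* ℂ) → ℕ) : Prop :=
  ∃ τ₀, Nat.Coprime (t τ₀) N ∧ (t τ₀ ≤ 2 ∨ IsPrimePow N) ∧
    ∀ τ, τ ≠ τ₀ → τ ≠ (starRingEnd ℂ).comp τ₀ → t τ = 0 ∨ t τ = N

/-- Powers of an odd prime number. -/
def GoodB (N : ℕ) (t : (F →+* ℂ) → ℕ) : Prop :=
  ∃ p c : ℕ, p.Prime ∧ p ≠ 2 ∧ N = p ^ c ∧
    ((∃ τ₀ : F →+* ℂ, ¬ p ∣ t τ₀ ∧ ∀ τ, τ ≠ τ₀ → τ ≠ (starRingEnd ℂ).comp τ₀ → p ∣ t τ) ∨
      ∀ L : (F →+* ℂ) → ZMod p, (∀ τ, L ((starRingEnd ℂ).comp τ) = - L τ) →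
        (∀ σ : ℂ ≃+* ℂ, ∑ τ, (t ((σ : ℂ →+* ℂ).comp τ) : ZMod p) * L τ = 0) → L = 0)

theorem conj_conj (τ : F →+* ℂ) : (starRingEnd ℂ).comp ((starRingEnd ℂ).comp τ) = τ := by
  ext x
  simp

/-- **The conditions in the first case.** -/
theorem condsA (M : Pol Z) {j : F →+* MQ g} {D : Subalgebra ℚ (MQ g)} (hD : Dv Z D)
    (hjD : ∀ a, j a ∈ D) (hjc : ∀ a, ∀ x ∈ D, j a * x = x * j a) {n N : ℕ}
    (hn : finrank ℚ D = n ^ 2 * finrank ℚ (Subalgebra.center ℚ D)) (h3 : 3 ≤ N)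
    (hdim : 2 * g = finrank ℚ F * (n * N)) (t : (F →+* ℂ) → ℕ)
    (ht : ∀ τ, finrank ℂ (TF Z j τ) = n * t τ)
    (hcop : ∀ τ : F →+* ℂ, Nat.Coprime N (Nat.card
      {π : (@MulAction.toPermHom (RingAut ℂ) (F →+* ℂ) _ (embAct F)).range //
        (π : Equiv.Perm (F →+* ℂ)) τ = τ}))
    (hA : GoodA N t) : M.Cop ∧ M.Sep ∧ M.Nd := by
  classical
  obtain ⟨τ₀, hc, h12, hdef⟩ := hA
  have hgood := good_of h3 hc h12
  have ht0 : t τ₀ ≠ 0 := by
    intro h
    rw [h, Nat.coprime_zero_left] at hc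
    omega
  have htN : t τ₀ ≠ N := by
    intro h
    rw [h, Nat.coprime_self] at hc
    omega
  refine conds_gen M hD hjD hjc hn (by omega) hdim t ht hcop (fun _ => ⟨τ₀, hc⟩) ?_ ?_
  · intro hsum htr τ τ' hne
    obtain ⟨σ, hσ⟩ := htr τ τ₀
    refine ⟨σ, fun h => ?_⟩
    rw [hσ] at h
    have h1 : (σ : ℂ →+* ℂ).comp τ' ≠ τ₀ := by
      intro h2
      apply hne
      rw [← hσ] at h2
      ext x
      apply σ.injective
      exact (congrArg (fun f : F →+* ℂ => f x) h2).symm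
    by_cases h2 : (σ : ℂ →+* ℂ).comp τ' = (starRingEnd ℂ).comp τ₀
    · rw [h2] at h
      have h4 := hsum τ₀
      rw [← h] at h4
      exact hgood.two (by omega)
    · rcases hdef _ h1 h2 with h4 | h4
      · exact ht0 (h.trans h4)
      · exact htN (h.trans h4)
  · intro hsum X _ _ H π c r n' S
    let _ := embAct F
    have S' : SigA (G := RingAut ℂ) H π c (fun τ => (starRingEnd ℂ).comp τ) r n' t N τ₀ :=
      { normal := S.normal
        triv := S.triv
        eqv := S.eqv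
        tr := S.tr
        surj := S.surj
        cc := S.cc
        cg := S.cg
        pc := S.pc
        ne := fun τ => cm_ne τ
        trH := S.trH
        sum := S.sum
        fib := S.fib
        card := S.card
        def0 := hdef
        good := hgood }
    exact
      { cop := S'.cop
        sep := fun x y h1 h2 h4 h5 => S'.sep h1 h2 h4 h5
        nd := S'.nd }

/-- **The conditions in the second case.** -/
theorem condsB (M : Pol Z) {j : F →+* MQ g} {D : Subalgebra ℚ (MQ g)} (hD : Dv Z D)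
    (hjD : ∀ a, j a ∈ D) (hjc : ∀ a, ∀ x ∈ D, j a * x = x * j a) {n N : ℕ}
    (hn : finrank ℚ D = n ^ 2 * finrank ℚ (Subalgebra.center ℚ D)) (h3 : 3 ≤ N)
    (hdim : 2 * g = finrank ℚ F * (n * N)) (t : (F →+* ℂ) → ℕ)
    (ht : ∀ τ, finrank ℂ (TF Z j τ) = n * t τ)
    (hcop : ∀ τ : F →+* ℂ, Nat.Coprime N (Nat.card
      {π : (@MulAction.toPermHom (RingAut ℂ) (F →+* ℂ) _ (embAct F)).range //
        (π : Equiv.Perm (F →+* ℂ)) τ = τ}))
    (hB : GoodB N t) : M.Cop ∧ M.Sep ∧ M.Nd := by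
  classical
  obtain ⟨p, k, hp, hp2, hN, hB⟩ := hB
  have : Fact p.Prime := ⟨hp⟩
  have hk : k ≠ 0 := by
    rintro rfl
    rw [pow_zero] at hN
    omega
  have hpN : p ∣ N := by
    rw [hN]
    exact dvd_pow_self p hk
  have hNodd : ¬ 2 ∣ N := by
    intro h
    rw [hN] at h
    have h1 := Nat.Prime.dvd_of_dvd_pow Nat.prime_two h
    exact hp2 ((Nat.prime_dvd_prime_iff_eq Nat.prime_two hp).1 h1).symm
  have hgen : (∀ τ, t τ + t ((starRingEnd ℂ).comp τ) = N) →
      ∀ L : (F →+* ℂ) → ZMod p, (∀ τ, L ((starRingEnd ℂ).comp τ) = - L τ) →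
        (∀ σ : ℂ ≃+* ℂ, ∑ τ, (t ((σ : ℂ →+* ℂ).comp τ) : ZMod p) * L τ = 0) → L = 0 := by
    intro hsum
    rcases hB with ⟨τ₀, h6, h7⟩ | h6
    · exact one_place hp2 hN t hsum h6 h7
    · exact h6
  refine conds_gen M hD hjD hjc hn (by omega) hdim t ht hcop ?_ ?_ ?_
  · intro hsum
    by_contra hcon
    push Not at hcon
    obtain ⟨τ₁⟩ : Nonempty (F →+* ℂ) := inferInstance
    have hdiv : ∀ τ, p ∣ t τ := by
      intro τ
      by_contra h1
      apply hcon τ
      rw [hN]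
      exact Nat.Coprime.pow_right k
        ((Nat.coprime_comm).1 ((Nat.Prime.coprime_iff_not_dvd hp).2 h1))
    have h1 := hgen hsum (Pi.single τ₁ 1 - Pi.single ((starRingEnd ℂ).comp τ₁) 1) (by
        intro z
        have e1 : ∀ w, ((starRingEnd ℂ).comp z = w) ↔ (z = (starRingEnd ℂ).comp w) := fun w =>
          ⟨fun h => by rw [← h, conj_conj], fun h => by rw [h, conj_conj]⟩
        have e2 : ∀ w, ((starRingEnd ℂ).comp z = (starRingEnd ℂ).comp w) ↔ (z = w) := fun w =>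
          ⟨fun h => by rw [← conj_conj z, h, conj_conj], fun h => by rw [h]⟩
        simp only [Pi.sub_apply, Pi.single_apply, e2, e1]
        ring) (by
        intro σ
        refine Finset.sum_eq_zero fun y _ => ?_
        have h2 : (t ((σ : ℂ →+* ℂ).comp y) : ZMod p) = 0 := by
          rw [ZMod.natCast_eq_zero_iff]
          exact hdiv _
        rw [h2, zero_mul])
    have h2 := congrFun h1 τ₁
    simp only [Pi.sub_apply, Pi.single_apply, if_true, Pi.zero_apply] at h2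
    rw [if_neg (cm_ne τ₁).symm, sub_zero] at h2
    exact one_ne_zero h2
  · intro hsum _ τ τ' hne
    let _ := embAct F
    exact t_sepY (G := RingAut ℂ) (p := p) (c' := fun τ : F →+* ℂ =>
      (starRingEnd ℂ).comp τ) (t := t) (N := N) conj_conj (fun σ τ => cm_comm σ τ) hsum hNodd
      (hgen hsum) hne
  · intro hsum X _ _ H π c r n' S
    let _ := embAct F
    have hpow : ∀ τ, ∃ b, Fintype.card {x // π x = τ} = p ^ b := by
      intro τ
      have h1 := S.card τ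
      rw [hN] at h1
      obtain ⟨b, -, hb⟩ := (Nat.dvd_prime_pow hp).1 (h1 ▸ dvd_mul_left _ _ :
        Fintype.card {x // π x = τ} ∣ p ^ k)
      exact ⟨b, hb⟩
    have S' : SigF (G := RingAut ℂ) H p π c (fun τ => (starRingEnd ℂ).comp τ) r n' t :=
      { normal := S.normal
        triv := S.triv
        cop := fun y => Nat.Coprime.coprime_dvd_left hpN (S.cop y)
        eqv := S.eqv
        tr := S.tr
        surj := S.surj
        card := hpow
        cc := S.cc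
        cg := S.cg
        pc := S.pc
        odd := hp2
        sum := S.sum
        pow := by
          obtain ⟨τ₁⟩ : Nonempty (F →+* ℂ) := inferInstance
          have h1 := S.card τ₁
          rw [hN] at h1
          obtain ⟨a, -, ha⟩ := (Nat.dvd_prime_pow hp).1 (h1 ▸ dvd_mul_right _ _ : n' ∣ p ^ k)
          exact ⟨a, ha⟩
        fib := S.fib
        gen := hgen hsum }
    exact
      { cop := copF S'
        sep := fun x y h1 h2 h4 h5 => sepF S' h1 h2 h4 h5
        nd := ndF S' }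

/-- **All Hodge classes on all powers are divisorial.** -/
theorem hodge_G (hsymm : Zᵀ = Z) (hpos : (Z.map Complex.im).PosDef)
    {j : F →+* MQ g}
    {D : Subalgebra ℚ (MQ g)} (hD : Dv Z D) (hjD : ∀ a, j a ∈ D)
    (hjc : ∀ a, ∀ x ∈ D, j a * x = x * j a) {n N : ℕ}
    (hn : finrank ℚ D = n ^ 2 * finrank ℚ (Subalgebra.center ℚ D)) (h3 : 3 ≤ N)
    (hdim : 2 * g = finrank ℚ F * (n * N)) {t : (F →+* ℂ) → ℕ}
    (ht : ∀ τ, finrank ℂ (TF Z j τ) = n * t τ)
    (hcop : ∀ τ : F →+* ℂ, Nat.Coprime N (Nat.card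
      {π : (@MulAction.toPermHom (RingAut ℂ) (F →+* ℂ) _ (embAct F)).range //
        (π : Equiv.Perm (F →+* ℂ)) τ = τ}))
    (hgood : GoodA N t ∨ GoodB N t)
    {k m : ℕ} (f : (Fin k → Fin g ⊕ Fin g → ℚ) [⋀^Fin m × Fin 2]→ₗ[ℚ] ℚ)
    (hf : IsHodge (perPow Z k) f) : f ∈ divisorial (perPow Z k) m := by
  have M : Pol Z := ⟨hsymm, hpos⟩
  rcases hgood with h | h
  · obtain ⟨c1, c2, c3⟩ := condsA M hD hjD hjc hn h3 hdim t ht hcop h
    exact M.divisorial_all c1 c2 c3 f hf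
  · obtain ⟨c1, c2, c3⟩ := condsB M hD hjD hjc hn h3 hdim t ht hcop h
    exact M.divisorial_all c1 c2 c3 f hf

end Pool.Agent.H943.KF
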